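import Mathlib
import Pool.Agent.Helper445.Croft.Iter

set_option autoImplicit false

open MeasureTheory Set Filter Topology intervalIntegral
open scoped ENNReal Interval

namespace Croft.KA

lemma nd_pt' (θ0 p0 u θ : ℝ) :
    nd (pt θ0 p0 u) θ = p0 * Real.cos (θ - θ0) + u * Real.sin (θ - θ0) := by
  unfold nd
  rw [pt_re, pt_im, Real.cos_sub, Real.sin_sub]
  ring

lemma td_pt' (θ0 p0 u θ : ℝ) :
    td (pt θ0 p0 u) θ = -p0 * Real.sin (θ - θ0) + u * Real.cos (θ - θ0) := by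
  unfold td
  rw [pt_re, pt_im, Real.cos_sub, Real.sin_sub]
  ring

lemma pt_nd_td (z : ℂ) (θ : ℝ) : pt θ (nd z θ) (td z θ) = z := by
  apply Complex.ext
  · rw [pt_re]; unfold nd td
    have := Real.sin_sq_add_cos_sq θ
    linear_combination z.re * this
  · rw [pt_im]; unfold nd td
    have := Real.sin_sq_add_cos_sq θ
    linear_combination z.im * this

lemma hasDerivAt_nd (z : ℂ) (θ : ℝ) : HasDerivAt (fun θ => nd z θ) (td z θ) θ := by
  have h := ((Real.hasDerivAt_cos θ).const_mul z.re).add ((Real.hasDerivAt_sin θ).const_mul z.im)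
  have e1 : td z θ = z.re * -Real.sin θ + z.im * Real.cos θ := by unfold td; ring
  rw [e1]; exact h

lemma hasDerivAt_td (z : ℂ) (θ : ℝ) : HasDerivAt (fun θ => td z θ) (-nd z θ) θ := by
  have h := ((Real.hasDerivAt_sin θ).const_mul (-z.re)).add ((Real.hasDerivAt_cos θ).const_mul z.im)
  have e1 : -nd z θ = -z.re * Real.cos θ + z.im * -Real.sin θ := by unfold nd; ring
  rw [e1]; exact h

lemma nd_sq_add_td_sq (z : ℂ) (θ : ℝ) : nd z θ ^ 2 + td z θ ^ 2 = ‖z‖ ^ 2 := by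
  rw [Complex.sq_norm, Complex.normSq_apply]
  unfold nd td
  have := Real.sin_sq_add_cos_sq θ
  linear_combination (z.re * z.re + z.im * z.im) * this

lemma abs_nd_le (z : ℂ) (θ : ℝ) : |nd z θ| ≤ ‖z‖ := by
  apply abs_le_of_sq_le_sq _ (norm_nonneg _)
  nlinarith [nd_sq_add_td_sq z θ, sq_nonneg (td z θ)]

lemma abs_td_le (z : ℂ) (θ : ℝ) : |td z θ| ≤ ‖z‖ := by
  apply abs_le_of_sq_le_sq _ (norm_nonneg _)
  nlinarith [nd_sq_add_td_sq z θ, sq_nonneg (nd z θ)]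

lemma norm_pt_sq' (θ p σ : ℝ) : ‖pt θ p σ‖ ^ 2 = p ^ 2 + σ ^ 2 := by
  rw [← nd_sq_add_td_sq _ θ, nd_pt, td_pt]

lemma norm_pt_le {θ p σ : ℝ} (hp : |p| ≤ 1) (hσ : |σ| ≤ 1) : ‖pt θ p σ‖ ≤ 2 := by
  have h1 := norm_pt_sq' θ p σ
  have h2 : p ^ 2 ≤ 1 := by rw [← sq_abs]; exact pow_le_one₀ (abs_nonneg _) hp
  have h3 : σ ^ 2 ≤ 1 := by rw [← sq_abs]; exact pow_le_one₀ (abs_nonneg _) hσ
  nlinarith [norm_nonneg (pt θ p σ)]

lemma abs_nd_sub_le {z : ℂ} {C : ℝ} (hz : ‖z‖ ≤ C) (θ θ' : ℝ) :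
    |nd z θ - nd z θ'| ≤ C * |θ - θ'| := by
  have := Convex.norm_image_sub_le_of_norm_hasDerivWithin_le (f := fun θ => nd z θ)
    (f' := fun θ => td z θ) (C := C) (s := univ) (x := θ') (y := θ)
    (fun x _ => (hasDerivAt_nd z x).hasDerivWithinAt)
    (fun x _ => (abs_td_le z x).trans hz) convex_univ (mem_univ _) (mem_univ _)
  simpa using this

lemma abs_td_sub_le {z : ℂ} {C : ℝ} (hz : ‖z‖ ≤ C) (θ θ' : ℝ) :
    |td z θ - td z θ'| ≤ C * |θ - θ'| := by
  have := Convex.norm_image_sub_le_of_norm_hasDerivWithin_le (f := fun θ => td z θ)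
    (f' := fun θ => -nd z θ) (C := C) (s := univ) (x := θ') (y := θ)
    (fun x _ => (hasDerivAt_td z x).hasDerivWithinAt)
    (fun x _ => by rw [norm_neg]; exact (abs_nd_le z x).trans hz) convex_univ (mem_univ _) (mem_univ _)
  simpa using this

/-- slice of `Q` at level `s` along the line `l` -/
def VQ (Q : Set (ℂ × ℝ)) (l : ℝ × ℝ) (s : ℝ) : Set ℝ := {u | |u| ≤ 1 ∧ (pt l.1 l.2 u, s) ∈ Q}

lemma volume_preimage_affine (a c : ℝ) (ha : a ≠ 0) (S : Set ℝ) :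
    volume ((fun u : ℝ => c + u * a) ⁻¹' S) = ENNReal.ofReal |a⁻¹| * volume S := by
  have h1 : (fun u : ℝ => c + u * a) ⁻¹' S = (fun u => u * a) ⁻¹' ((fun v => c + v) ⁻¹' S) := rfl
  rw [h1, Real.volume_preimage_mul_right ha, measure_preimage_add]

/-- the basic estimate for slices of service regions -/
lemma cover {F : ℝ × ℝ → ℝ} (hF : ContDiff ℝ 1 F) {W : Set (ℝ × ℝ × ℝ)} (hW : IsCompact W)
    (hWb : ∀ x ∈ W, |x.2.1| ≤ 1 ∧ |x.2.2| ≤ 1) {D r δ : ℝ} (hr : 0 < r) (hrD : r * D ≤ δ)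
    (hpd : ∀ x ∈ W, ∀ y : ℝ × ℝ × ℝ, dist y x ≤ 2 * r → |pd F y.1 y.2.1 y.2.2| ≤ D)
    {η₁ : ℝ} (hη₁ : 0 < η₁) {l : ℝ × ℝ} {s : ℝ} {Z : Set (ℝ × ℝ)} (hZ : MeasurableSet Z)
    (hadm : ∀ x ∈ W, ∀ y : ℝ × ℝ × ℝ, dist y x ≤ 2 * r → nd (pt y.1 y.2.1 y.2.2) l.1 = l.2 →
      |F (y.1, y.2.1) - s| ≤ 2 * δ → η₁ ≤ |Real.sin (y.1 - l.1)| ∧ (y.1, y.2.1) ∈ Z) :
    ENNReal.ofReal (2 * r * η₁) * volume (VQ (Qreg F W δ) l s) ≤ volume Z := by
  set K : Set ((ℝ × ℝ × ℝ) × ℝ × ℝ) := (W ×ˢ (Icc (-r) r ×ˢ Icc (-1) 1)) ∩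
    {y | pt y.1.1 y.1.2.1 y.1.2.2 = pt l.1 l.2 y.2.2 ∧ |F (y.1.1, y.1.2.1) - s| ≤ δ} with hK
  have hKc : IsCompact K := by
    refine (hW.prod (isCompact_Icc.prod isCompact_Icc)).inter_right ?_
    have k1 : IsClosed {y : (ℝ × ℝ × ℝ) × ℝ × ℝ | pt y.1.1 y.1.2.1 y.1.2.2 = pt l.1 l.2 y.2.2} := by
      refine isClosed_eq ?_ ?_
      · exact continuous_pt.comp continuous_fst
      · exact continuous_pt.comp (by fun_prop : Continuous (fun y : (ℝ × ℝ × ℝ) × ℝ × ℝ => (l.1, l.2, y.2.2)))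
    have k2 : IsClosed {y : (ℝ × ℝ × ℝ) × ℝ × ℝ | |F (y.1.1, y.1.2.1) - s| ≤ δ} := by
      have := hF.continuous
      exact isClosed_le (by fun_prop) continuous_const
    exact k1.inter k2
  set 𝒜 : Set (ℝ × ℝ) := (fun y : (ℝ × ℝ × ℝ) × ℝ × ℝ => (y.1.1 + y.2.1, y.2.2)) '' K with h𝒜
  have h𝒜c : IsCompact 𝒜 := hKc.image (by fun_prop)
  have h𝒜m : MeasurableSet 𝒜 := h𝒜c.measurableSet
  -- points of 𝒜
  have hA : ∀ θ u : ℝ, (θ, u) ∈ 𝒜 → η₁ ≤ |Real.sin (θ - l.1)| ∧ (θ, nd (pt l.1 l.2 u) θ) ∈ Z := by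
    intro θ u h
    obtain ⟨⟨x, ρ, u'⟩, ⟨⟨hx, hρ, hu'⟩, hxy, hFs⟩, heq⟩ := h
    simp only [Prod.mk.injEq] at heq hx hρ hu' hxy hFs
    obtain ⟨h1, h2⟩ := heq
    subst h2
    set z := pt l.1 l.2 u' with hz
    have hzn : ‖z‖ ≤ 2 := by
      rw [← hxy]; exact norm_pt_le (hWb x hx).1 (hWb x hx).2
    have hx1 : nd z x.1 = x.2.1 := by rw [← hxy, nd_pt]
    have hx2 : td z x.1 = x.2.2 := by rw [← hxy, td_pt]
    have habs : |θ - x.1| ≤ r := by
      rw [← h1, abs_le]; constructor <;> linarith [hρ.1, hρ.2]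
    have hdist : ∀ ϑ : ℝ, |ϑ - x.1| ≤ r → dist ((ϑ, nd z ϑ, td z ϑ) : ℝ × ℝ × ℝ) x ≤ 2 * r := by
      intro ϑ hϑ
      rw [Prod.dist_eq, Prod.dist_eq]
      refine max_le ?_ (max_le ?_ ?_)
      · rw [Real.dist_eq]; linarith
      · rw [Real.dist_eq]
        change |nd z ϑ - x.2.1| ≤ 2 * r
        rw [← hx1]
        refine (abs_nd_sub_le hzn _ _).trans ?_
        linarith
      · rw [Real.dist_eq]
        change |td z ϑ - x.2.2| ≤ 2 * r
        rw [← hx2]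
        refine (abs_td_sub_le hzn _ _).trans ?_
        linarith
    have hF2 : |F (θ, nd z θ) - F (x.1, nd z x.1)| ≤ D * |θ - x.1| := by
      have := Convex.norm_image_sub_le_of_norm_hasDerivWithin_le (f := fun θ => F (θ, nd z θ))
        (f' := fun θ => pd F θ (nd z θ) (td z θ)) (C := D) (s := uIcc x.1 θ) (x := x.1) (y := θ)
        (fun ϑ _ => (hasDerivAt_pencil hF z ϑ).hasDerivWithinAt)
        (fun ϑ hϑ => by
          rw [Real.norm_eq_abs]
          refine hpd x hx (ϑ, nd z ϑ, td z ϑ) (hdist ϑ ?_)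
          exact (abs_sub_left_of_mem_uIcc hϑ).trans habs) (convex_uIcc _ _) left_mem_uIcc right_mem_uIcc
      simpa using this
    have hD0 : 0 ≤ D := (abs_nonneg _).trans (hpd x hx x (by rw [dist_self]; linarith))
    have := hadm x hx (θ, nd z θ, td z θ) (hdist θ habs) (by
      simp only
      rw [pt_nd_td, hz, nd_pt]) (by
      simp only
      have e1 : F (θ, nd z θ) - s = (F (θ, nd z θ) - F (x.1, nd z x.1)) + (F (x.1, x.2.1) - s) := by
        rw [hx1]; ring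
      rw [e1]
      refine (abs_add_le _ _).trans ?_
      have : D * |θ - x.1| ≤ r * D := by
        rw [mul_comm]; exact mul_le_mul_of_nonneg_right habs hD0
      linarith)
    exact this
  -- Fubini, first direction
  have hlow : ENNReal.ofReal (2 * r) * volume (VQ (Qreg F W δ) l s) ≤ volume 𝒜 := by
    rw [Measure.volume_eq_prod, Measure.prod_apply_symm h𝒜m]
    have hV : MeasurableSet (VQ (Qreg F W δ) l s) := by
      have : VQ (Qreg F W δ) l s = Icc (-1) 1 ∩ (fun u => (pt l.1 l.2 u, s)) ⁻¹' (Qreg F W δ) := by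
        ext u
        simp only [VQ, mem_ofPred_eq, mem_inter_iff, mem_Icc, mem_preimage, abs_le]
      rw [this]
      refine measurableSet_Icc.inter ?_
      have hc : Continuous (fun u : ℝ => (pt l.1 l.2 u, s)) :=
        (continuous_pt.comp (by fun_prop : Continuous (fun u : ℝ => (l.1, l.2, u)))).prodMk continuous_const
      exact hc.measurable (isCompact_Qreg hF.continuous hW δ).measurableSet
    rw [← setLIntegral_const, ← lintegral_indicator hV]
    refine lintegral_mono (fun u => ?_)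
    by_cases hu : u ∈ VQ (Qreg F W δ) l s
    · rw [indicator_of_mem hu]
      obtain ⟨hu1, x, hx, hxy, hFs⟩ := hu
      simp only at hxy hFs
      calc ENNReal.ofReal (2 * r) = volume (Icc (x.1 - r) (x.1 + r)) := by
            rw [Real.volume_Icc]; congr 1; ring
        _ ≤ _ := by
          apply measure_mono
          intro θ hθ
          refine ⟨(x, θ - x.1, u), ⟨⟨hx, ⟨by linarith [hθ.1], by linarith [hθ.2]⟩, abs_le.mp hu1⟩, hxy, hFs⟩, ?_⟩
          simp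
    · rw [indicator_of_notMem hu]; exact zero_le
  have hup : ENNReal.ofReal η₁ * volume 𝒜 ≤ volume Z := by
    rw [Measure.volume_eq_prod, Measure.prod_apply h𝒜m, Measure.prod_apply hZ]
    rw [← lintegral_const_mul _ (measurable_measure_prodMk_left h𝒜m)]
    refine lintegral_mono (fun θ => ?_)
    simp only
    by_cases hne : (Prod.mk θ ⁻¹' 𝒜).Nonempty
    · obtain ⟨u0, hu0⟩ := hne
      have hs := (hA θ u0 hu0).1
      have hs0 : Real.sin (θ - l.1) ≠ 0 := by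
        intro h; rw [h, abs_zero] at hs; linarith
      have hsub : Prod.mk θ ⁻¹' 𝒜 ⊆
          (fun u : ℝ => l.2 * Real.cos (θ - l.1) + u * Real.sin (θ - l.1)) ⁻¹' (Prod.mk θ ⁻¹' Z) := by
        intro u hu
        have := (hA θ u hu).2
        simp only [mem_preimage]
        rwa [nd_pt'] at this
      calc ENNReal.ofReal η₁ * volume (Prod.mk θ ⁻¹' 𝒜) ≤
          ENNReal.ofReal η₁ * (ENNReal.ofReal |(Real.sin (θ - l.1))⁻¹| * volume (Prod.mk θ ⁻¹' Z)) := by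
            gcongr
            refine (measure_mono hsub).trans (le_of_eq ?_)
            exact volume_preimage_affine _ _ hs0 _
        _ = ENNReal.ofReal (η₁ * |(Real.sin (θ - l.1))⁻¹|) * volume (Prod.mk θ ⁻¹' Z) := by
            rw [← mul_assoc, ENNReal.ofReal_mul hη₁.le]
        _ ≤ ENNReal.ofReal 1 * volume (Prod.mk θ ⁻¹' Z) := by
            gcongr
            rw [abs_inv, ← div_eq_mul_inv, div_le_one (abs_pos.mpr hs0)]
            exact hs
        _ = _ := by simp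
    · rw [not_nonempty_iff_eq_empty] at hne
      rw [hne]; simp
  calc ENNReal.ofReal (2 * r * η₁) * volume (VQ (Qreg F W δ) l s) =
      ENNReal.ofReal η₁ * (ENNReal.ofReal (2 * r) * volume (VQ (Qreg F W δ) l s)) := by
        rw [ENNReal.ofReal_mul (by positivity)]; ring
    _ ≤ ENNReal.ofReal η₁ * volume 𝒜 := by gcongr
    _ ≤ _ := hup

end Croft.KA
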