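import Mathlib
import Pool.Agent.Helper445.Croft2.Geom

set_option autoImplicit false

open MeasureTheory Set Filter Topology intervalIntegral
open scoped ENNReal Interval

namespace Croft.KA

/-- closed `ρ`-neighbourhood of a compact set -/
def thk (P : Set (ℝ × ℝ × ℝ)) (ρ : ℝ) : Set (ℝ × ℝ × ℝ) := {y | ∃ x ∈ P, dist y x ≤ ρ}

lemma isCompact_thk {P : Set (ℝ × ℝ × ℝ)} (hP : IsCompact P) (ρ : ℝ) : IsCompact (thk P ρ) := by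
  have h : thk P ρ = (fun y : (ℝ × ℝ × ℝ) × (ℝ × ℝ × ℝ) => y.1 + y.2) '' (P ×ˢ Metric.closedBall 0 ρ) := by
    ext y
    simp only [thk, mem_ofPred_eq, mem_image, mem_prod, Metric.mem_closedBall, dist_zero_right]
    constructor
    · rintro ⟨x, hx, hd⟩
      exact ⟨(x, y - x), ⟨hx, by rwa [← dist_eq_norm]⟩, by simp⟩
    · rintro ⟨⟨x, v⟩, ⟨hx, hv⟩, rfl⟩
      exact ⟨x, hx, by rw [dist_eq_norm]; simpa using hv⟩
  rw [h]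
  exact (hP.prod (isCompact_closedBall _ _)).image continuous_add

lemma thk_mono {P P' : Set (ℝ × ℝ × ℝ)} (h : P ⊆ P') {ρ ρ' : ℝ} (hρ : ρ ≤ ρ') :
    thk P ρ ⊆ thk P' ρ' := fun _ ⟨x, hx, hd⟩ => ⟨x, h hx, hd.trans hρ⟩

/-- part of `thk P ρ` lying on the line `l` at level `s` -/
def TS (F : ℝ × ℝ → ℝ) (P : Set (ℝ × ℝ × ℝ)) (ρ κ : ℝ) (l : ℝ × ℝ) (s : ℝ) : Set (ℝ × ℝ × ℝ) :=
  thk P ρ ∩ {y | nd (pt y.1 y.2.1 y.2.2) l.1 = l.2 ∧ |F (y.1, y.2.1) - s| ≤ κ}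

lemma isCompact_TS {F : ℝ × ℝ → ℝ} (hF : Continuous F) {P : Set (ℝ × ℝ × ℝ)} (hP : IsCompact P)
    (ρ κ : ℝ) (l : ℝ × ℝ) (s : ℝ) : IsCompact (TS F P ρ κ l s) := by
  refine (isCompact_thk hP ρ).inter_right ?_
  have k1 : IsClosed {y : ℝ × ℝ × ℝ | nd (pt y.1 y.2.1 y.2.2) l.1 = l.2} := by
    refine isClosed_eq ?_ continuous_const
    exact continuous_nd.comp (continuous_pt.prodMk continuous_const)
  have k2 : IsClosed {y : ℝ × ℝ × ℝ | |F (y.1, y.2.1) - s| ≤ κ} :=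
    isClosed_le (by fun_prop) continuous_const
  exact k1.inter k2

lemma TS_mono {F : ℝ × ℝ → ℝ} {P P' : Set (ℝ × ℝ × ℝ)} (h : P ⊆ P') {ρ ρ' κ κ' : ℝ} (hρ : ρ ≤ ρ')
    (hκ : κ ≤ κ') (l : ℝ × ℝ) (s : ℝ) : TS F P ρ κ l s ⊆ TS F P' ρ' κ' l s :=
  fun _ ⟨h1, h2, h3⟩ => ⟨thk_mono h hρ h1, h2, h3.trans hκ⟩

/-- the shear coordinates of the points of `TS` -/
def XS (B : ℝ → ℝ) (F : ℝ × ℝ → ℝ) (P : Set (ℝ × ℝ × ℝ)) (ρ : ℝ) (l : ℝ × ℝ) (s : ℝ) : Set ℝ :=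
  (fun y : ℝ × ℝ × ℝ => y.2.1 - B y.1) '' TS F P ρ ρ l s

lemma isCompact_XS {B : ℝ → ℝ} (hB : Continuous B) {F : ℝ × ℝ → ℝ} (hF : Continuous F)
    {P : Set (ℝ × ℝ × ℝ)} (hP : IsCompact P) (ρ : ℝ) (l : ℝ × ℝ) (s : ℝ) :
    IsCompact (XS B F P ρ l s) :=
  (isCompact_TS hF hP ρ ρ l s).image (by fun_prop)

/-- slices of service regions at nontangential lines -/
lemma slice_le {B : ℝ → ℝ} (hB : Continuous B) {F : ℝ × ℝ → ℝ} (hF : ContDiff ℝ 1 F)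
    {W : Set (ℝ × ℝ × ℝ)} (hW : IsCompact W)
    (hWb : ∀ x ∈ W, |x.2.1| ≤ 1 ∧ |x.2.2| ≤ 1) {D r δ ρ ν : ℝ} (hr : 0 < r) (hν : 0 < ν)
    (hrD : r * D ≤ δ) (hrρ : 2 * r ≤ ρ) (hδρ : 2 * δ ≤ ρ)
    (hpd : ∀ y ∈ thk W (2 * r), |pd F y.1 y.2.1 y.2.2| ≤ D)
    {η₁ : ℝ} (hη₁ : 0 < η₁) {l : ℝ × ℝ} {s : ℝ}
    (hadm : ∀ y ∈ TS F W (2 * r) (2 * δ) l s, η₁ ≤ |Real.sin (y.1 - l.1)|)
    (hmono : ∀ y₁ ∈ TS F W (2 * r) (2 * δ) l s, ∀ y₂ ∈ TS F W (2 * r) (2 * δ) l s,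
      y₁.2.1 - B y₁.1 = y₂.2.1 - B y₂.1 → ν * |y₁.1 - y₂.1| ≤ |F (y₁.1, y₁.2.1) - F (y₂.1, y₂.2.1)|) :
    ENNReal.ofReal (2 * r * η₁) * volume (VQ (Qreg F W δ) l s) ≤
      ENNReal.ofReal (4 * δ / ν) * volume (XS B F W ρ l s) := by
  have hTS := isCompact_TS hF.continuous hW (2 * r) (2 * δ) l s
  set Z : Set (ℝ × ℝ) := (fun y : ℝ × ℝ × ℝ => (y.1, y.2.1)) '' TS F W (2 * r) (2 * δ) l s with hZ
  have hZc : IsCompact Z := hTS.image (by fun_prop)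
  refine (cover hF hW hWb hr hrD (fun x hx y hy => hpd y ⟨x, hx, hy⟩) hη₁ hZc.measurableSet
    (fun x hx y hy h1 h2 => ?_)).trans ?_
  · have hy' : y ∈ TS F W (2 * r) (2 * δ) l s := ⟨⟨x, hx, hy⟩, h1, h2⟩
    exact ⟨hadm y hy', ⟨y, hy', rfl⟩⟩
  set Z' : Set (ℝ × ℝ) := (fun y : ℝ × ℝ => (y.1, y.2 + B y.1)) ⁻¹' Z with hZ'
  have hZ'm : MeasurableSet Z' :=
    (by fun_prop : Continuous (fun y : ℝ × ℝ => (y.1, y.2 + B y.1))).measurable hZc.measurableSet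
  have e1 : volume Z = volume Z' := by
    rw [Measure.volume_eq_prod, Measure.prod_apply hZc.measurableSet, Measure.prod_apply hZ'm]
    congr 1
    funext θ
    have : Prod.mk θ ⁻¹' Z' = (fun x => x + B θ) ⁻¹' (Prod.mk θ ⁻¹' Z) := rfl
    rw [this, measure_preimage_add_right]
  rw [e1, Measure.volume_eq_prod, Measure.prod_apply_symm hZ'm]
  have hXm : MeasurableSet (XS B F W ρ l s) := (isCompact_XS hB hF.continuous hW ρ l s).measurableSet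
  rw [← setLIntegral_const, ← lintegral_indicator hXm]
  refine lintegral_mono (fun x => ?_)
  have hpt : ∀ θ : ℝ, (θ, x) ∈ Z' → ∃ y ∈ TS F W (2 * r) (2 * δ) l s, y.1 = θ ∧ y.2.1 - B y.1 = x := by
    intro θ h
    obtain ⟨y, hy, h1⟩ := h
    simp only [Prod.mk.injEq] at h1
    refine ⟨y, hy, h1.1, ?_⟩
    rw [h1.2, h1.1]; ring
  by_cases hne : ((fun θ : ℝ => (θ, x)) ⁻¹' Z').Nonempty
  · obtain ⟨θ0, hθ0⟩ := hne
    obtain ⟨y0, hy0, h1, h2⟩ := hpt θ0 hθ0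
    have hx : x ∈ XS B F W ρ l s := ⟨y0, TS_mono (le_refl _) hrρ hδρ l s hy0, h2⟩
    rw [indicator_of_mem hx]
    refine (Real.volume_le_diam _).trans ?_
    apply Metric.ediam_le
    intro θ₁ h₁ θ₂ h₂
    obtain ⟨y₁, hy₁, e₁, f₁⟩ := hpt θ₁ h₁
    obtain ⟨y₂, hy₂, e₂, f₂⟩ := hpt θ₂ h₂
    rw [edist_dist]
    apply ENNReal.ofReal_le_ofReal
    rw [Real.dist_eq, le_div_iff₀ hν]
    have h3 := hmono y₁ hy₁ y₂ hy₂ (f₁.trans f₂.symm)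
    rw [e₁, e₂] at h3
    have h4 : |F (θ₁, y₁.2.1) - F (θ₂, y₂.2.1)| ≤ 4 * δ := by
      have h5 := hy₁.2.2
      have h6 := hy₂.2.2
      rw [e₁] at h5
      rw [e₂] at h6
      have h7 : F (θ₁, y₁.2.1) - F (θ₂, y₂.2.1) = (F (θ₁, y₁.2.1) - s) - (F (θ₂, y₂.2.1) - s) := by ring
      rw [h7]
      refine (abs_sub _ _).trans ?_
      linarith
    linarith
  · rw [not_nonempty_iff_eq_empty] at hne
    simp only
    rw [hne, measure_empty]; exact zero_le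

end Croft.KA
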