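import Mathlib
import Pool.Agent.Helper445.Croft2.Slice

set_option autoImplicit false

open MeasureTheory Set Filter Topology intervalIntegral
open scoped ENNReal Interval

namespace Croft.KA

lemma one_wave2 {a1 a2 b1 b2 : ℝ} (hb : b1 ≤ b2) {O : Set (ℝ × ℝ)} (hO : IsOpen O)
    (hCO : Icc a1 a2 ×ˢ Icc b1 b2 ⊆ O) {P : ℝ → (ℝ × ℝ → ℝ) → Prop} (hP : PFam P)
    {κ : ℝ → ℝ} (hS : Site P O a1 a2 κ) {β : ℝ} (hβ : 0 ≤ β) (T : Finset ℝ)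
    (hT : ∀ t ∈ T, 0 ≤ t ∧ t * β ≤ 1) {F : ℝ × ℝ → ℝ} (hF : ContDiff ℝ 1 F)
    {m μ η : ℝ} (hm : 0 < m) (hμ : 0 < μ) (hη : 0 < η) :
    ∃ φ, P μ φ ∧ (∀ l, |φ l| ≤ m) ∧
      (∀ l ∈ O, pd φ l.1 l.2 (deriv κ l.1) = 0) ∧
      (∀ θ ∈ Icc a1 a2, ∀ p ∈ Icc b1 b2, ∀ σ ∈ Icc (-1 : ℝ) 1, |pd φ θ p σ| ≤ 2 * β) ∧
      (∀ t ∈ T, ∀ θ ∈ Icc a1 a2, |Ch b1 b2 (fun l => F l + φ l) t θ| ≤
        (1 - t ^ 2 * β ^ 2 / 8) * |Ch b1 b2 F t θ| + η) := by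
  have hμ' : 0 < min μ (m / 2) := lt_min hμ (half_pos hm)
  obtain ⟨k0, hk0, hw⟩ := hS.hw β _ hμ'
  have h1 : ∀ᶠ k in atTop, ∀ t ∈ T, ∀ φ : ℝ × ℝ → ℝ, ContDiff ℝ 1 φ →
      (∀ l ∈ O, φ l = β / (2 * Real.pi * k) * Real.sin (2 * Real.pi * k * (l.2 - κ l.1))) →
      ∀ θ ∈ Icc a1 a2, |Ch b1 b2 (fun l => F l + φ l) t θ| ≤
        (1 - t ^ 2 * β ^ 2 / 8) * |Ch b1 b2 F t θ| + η := by
    rw [Filter.eventually_all_finset]
    intro t ht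
    obtain ⟨k1, _, h⟩ := char_step_one hO hb hCO hS.hκ hF (hT t ht).1 hβ (hT t ht).2 hη
    filter_upwards [eventually_ge_atTop k1] with k hk using h k hk
  obtain ⟨k, hk1, hk2⟩ := (h1.and (eventually_ge_atTop k0)).exists
  obtain ⟨φ, hφP, hφ⟩ := hw k hk2
  have hk : 0 < k := lt_of_lt_of_le hk0 hk2
  have hφC := hP.hC1 _ _ hφP
  have hpd : ∀ l ∈ O, ∀ σ : ℝ, pd φ l.1 l.2 σ =
      β * Real.cos (2 * Real.pi * k * (l.2 - κ l.1)) * (σ - deriv κ l.1) := by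
    intro l hl σ
    unfold pd
    rw [fderiv_wave hO hS.hκ hk hφ (show (l.1, l.2) ∈ O from hl)]
    simp
  refine ⟨φ, hP.mono (min_le_left _ _) hφP, ?_, ?_, ?_, ?_⟩
  · intro l
    refine (hP.hsup _ _ hφP l).trans ?_
    have := min_le_right μ (m / 2)
    linarith
  · intro l hl
    rw [hpd l hl]; simp
  · intro θ hθ p hp σ hσ
    rw [hpd (θ, p) (hCO ⟨hθ, hp⟩), abs_mul, abs_mul, abs_of_nonneg hβ]
    have h2 : |σ - deriv κ θ| ≤ 2 := by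
      have h3 := abs_le.mp (hS.hb θ hθ)
      rw [abs_le]; constructor <;> linarith [hσ.1, hσ.2, h3.1, h3.2]
    have h4 : β * |Real.cos (2 * Real.pi * k * (p - κ θ))| ≤ β * 1 :=
      mul_le_mul_of_nonneg_left (Real.abs_cos_le_one _) hβ
    calc _ ≤ (β * 1) * 2 := mul_le_mul h4 h2 (abs_nonneg _) (by linarith)
      _ = 2 * β := by ring
  · intro t ht θ hθ
    exact hk1 t ht φ hφC hφ θ hθ

lemma exists_near {g : ℝ × ℝ × ℝ → ℝ} (hg : Continuous g) {W : Set (ℝ × ℝ × ℝ)} (hW : IsCompact W)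
    {ζ : ℝ} (hζ : 0 < ζ) : ∃ r > 0, ∀ x ∈ W, ∀ y, dist y x ≤ r → |g y - g x| ≤ ζ := by
  have huc := (isCompact_thk hW 1).uniformContinuousOn_of_continuous hg.continuousOn
  rw [Metric.uniformContinuousOn_iff] at huc
  obtain ⟨δ, hδ, h⟩ := huc ζ hζ
  refine ⟨min 1 (δ / 2), lt_min one_pos (half_pos hδ), fun x hx y hy => ?_⟩
  have h1 : y ∈ thk W 1 := ⟨x, hx, hy.trans (min_le_left _ _)⟩
  have h2 : x ∈ thk W 1 := ⟨x, hx, by simp⟩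
  have h3 := h y h1 x h2 (lt_of_le_of_lt (hy.trans (min_le_right _ _)) (by linarith))
  rw [Real.dist_eq] at h3
  exact h3.le

lemma of_mul_le {x y : ℝ} (hx : 0 < x) {V X : ℝ≥0∞}
    (h : ENNReal.ofReal x * V ≤ ENNReal.ofReal y * X) : V ≤ ENNReal.ofReal (y / x) * X := by
  have h1 : V = ENNReal.ofReal (x⁻¹) * (ENNReal.ofReal x * V) := by
    rw [← mul_assoc, ← ENNReal.ofReal_mul (by positivity), inv_mul_cancel₀ hx.ne']
    simp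
  rw [h1]
  calc ENNReal.ofReal (x⁻¹) * (ENNReal.ofReal x * V) ≤ ENNReal.ofReal (x⁻¹) * (ENNReal.ofReal y * X) := by
        gcongr
    _ = _ := by
        rw [← mul_assoc, ← ENNReal.ofReal_mul (by positivity)]
        congr 2
        rw [div_eq_inv_mul]

/-- monotonicity in the shear coordinate -/
lemma mono_of {O : Set (ℝ × ℝ)} {κ : ℝ → ℝ} (hκ : ContDiff ℝ 2 κ) {F : ℝ × ℝ → ℝ} (hF : ContDiff ℝ 1 F)
    {e : ℝ × ℝ → ℝ} (he : ∀ l ∈ O, pd F l.1 l.2 (deriv κ l.1) = e l) {ν : ℝ} {x θ₁ θ₂ : ℝ}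
    (h : ∀ θ ∈ uIcc θ₁ θ₂, (θ, x + κ θ) ∈ O ∧ ν ≤ |e (θ, x + κ θ)|) :
    ν * |θ₁ - θ₂| ≤ |F (θ₁, x + κ θ₁) - F (θ₂, x + κ θ₂)| := by
  have hder : ∀ θ ∈ uIcc θ₁ θ₂, HasDerivAt (fun θ => F (θ, x + κ θ)) (e (θ, x + κ θ)) θ := by
    intro θ hθ
    have h1 : HasDerivAt (fun θ : ℝ => (θ, x + κ θ)) (1, deriv κ θ) θ := by
      refine (hasDerivAt_id θ).prodMk ?_
      have := ((hκ.differentiable (by norm_num) θ).hasDerivAt).const_add x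
      exact this
    have h2 : HasFDerivAt F (fderiv ℝ F (θ, x + κ θ)) (θ, x + κ θ) :=
      (hF.differentiable (by norm_num) _).hasFDerivAt
    have h3 := h2.comp_hasDerivAt θ h1
    have h4 := he _ (h θ hθ).1
    unfold pd at h4
    simp only at h4
    rw [← h4]
    exact h3
  rcases lt_trichotomy θ₁ θ₂ with hlt | heq | hlt
  · rw [uIcc_of_le hlt.le] at h hder
    obtain ⟨c, hc, hc2⟩ := exists_hasDerivAt_eq_slope (fun θ => F (θ, x + κ θ))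
      (fun θ => e (θ, x + κ θ)) hlt
      (fun θ hθ => (hder θ hθ).continuousAt.continuousWithinAt)
      (fun θ hθ => hder θ (Ioo_subset_Icc_self hθ))
    have h5 := (h c (Ioo_subset_Icc_self hc)).2
    rw [hc2, abs_div, le_div_iff₀ (abs_pos.mpr (by linarith))] at h5
    rw [abs_sub_comm θ₁ θ₂, abs_sub_comm (F (θ₁, x + κ θ₁))]
    exact h5
  · subst heq; simp
  · rw [uIcc_comm, uIcc_of_le hlt.le] at h hder
    obtain ⟨c, hc, hc2⟩ := exists_hasDerivAt_eq_slope (fun θ => F (θ, x + κ θ))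
      (fun θ => e (θ, x + κ θ)) hlt
      (fun θ hθ => (hder θ hθ).continuousAt.continuousWithinAt)
      (fun θ hθ => hder θ (Ioo_subset_Icc_self hθ))
    have h5 := (h c (Ioo_subset_Icc_self hc)).2
    rw [hc2, abs_div, le_div_iff₀ (abs_pos.mpr (by linarith))] at h5
    exact h5

/-- position of the crossing point depends on the crossing line in a Lipschitz way -/
lemma sigma_lip {η₁ : ℝ} (hη₁ : 0 < η₁) {l : ℝ × ℝ} {y₁ y₂ : ℝ × ℝ × ℝ}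
    (h1 : nd (pt y₁.1 y₁.2.1 y₁.2.2) l.1 = l.2) (h2 : nd (pt y₂.1 y₂.2.1 y₂.2.2) l.1 = l.2)
    (hs : η₁ ≤ |Real.sin (y₁.1 - l.1)|) (hp : |y₂.2.1| ≤ 2) (hσ : |y₂.2.2| ≤ 2)
    (hpp : |y₁.2.1 - y₂.2.1| ≤ |y₁.1 - y₂.1|) :
    |y₁.2.2 - y₂.2.2| ≤ 5 / η₁ * |y₁.1 - y₂.1| := by
  rw [nd_pt'] at h1 h2
  have e1 : Real.cos (l.1 - y₁.1) = Real.cos (y₁.1 - l.1) := by
    rw [← Real.cos_neg]; congr 1; ring
  have e2 : Real.cos (l.1 - y₂.1) = Real.cos (y₂.1 - l.1) := by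
    rw [← Real.cos_neg]; congr 1; ring
  have e3 : Real.sin (l.1 - y₁.1) = -Real.sin (y₁.1 - l.1) := by
    rw [← Real.sin_neg]; congr 1; ring
  have e4 : Real.sin (l.1 - y₂.1) = -Real.sin (y₂.1 - l.1) := by
    rw [← Real.sin_neg]; congr 1; ring
  rw [e1, e3] at h1
  rw [e2, e4] at h2
  set c₁ := Real.cos (y₁.1 - l.1)
  set c₂ := Real.cos (y₂.1 - l.1)
  set s₁ := Real.sin (y₁.1 - l.1)
  set s₂ := Real.sin (y₂.1 - l.1)
  have hc : |c₁ - c₂| ≤ |y₁.1 - y₂.1| := by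
    have := Convex.norm_image_sub_le_of_norm_hasDerivWithin_le (f := Real.cos)
      (f' := fun θ => -Real.sin θ) (C := 1) (s := univ) (x := y₂.1 - l.1) (y := y₁.1 - l.1)
      (fun x _ => (Real.hasDerivAt_cos x).hasDerivWithinAt)
      (fun x _ => by rw [norm_neg]; exact Real.abs_sin_le_one x) convex_univ (mem_univ _) (mem_univ _)
    simpa using this
  have hs' : |s₁ - s₂| ≤ |y₁.1 - y₂.1| := by
    have := Convex.norm_image_sub_le_of_norm_hasDerivWithin_le (f := Real.sin)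
      (f' := fun θ => Real.cos θ) (C := 1) (s := univ) (x := y₂.1 - l.1) (y := y₁.1 - l.1)
      (fun x _ => (Real.hasDerivAt_sin x).hasDerivWithinAt)
      (fun x _ => Real.abs_cos_le_one x) convex_univ (mem_univ _) (mem_univ _)
    simpa using this
  have key : s₁ * (y₁.2.2 - y₂.2.2) = (y₁.2.1 - y₂.2.1) * c₁ + y₂.2.1 * (c₁ - c₂) - y₂.2.2 * (s₁ - s₂) := by
    linear_combination -h1 + h2
  have hb : |s₁ * (y₁.2.2 - y₂.2.2)| ≤ 5 * |y₁.1 - y₂.1| := by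
    rw [key]
    have t1 : |(y₁.2.1 - y₂.2.1) * c₁| ≤ |y₁.1 - y₂.1| := by
      rw [abs_mul]
      calc _ ≤ |y₁.1 - y₂.1| * 1 := mul_le_mul hpp (Real.abs_cos_le_one _) (abs_nonneg _) (abs_nonneg _)
        _ = _ := mul_one _
    have t2 : |y₂.2.1 * (c₁ - c₂)| ≤ 2 * |y₁.1 - y₂.1| := by
      rw [abs_mul]; exact mul_le_mul hp hc (abs_nonneg _) (by norm_num)
    have t3 : |y₂.2.2 * (s₁ - s₂)| ≤ 2 * |y₁.1 - y₂.1| := by
      rw [abs_mul]; exact mul_le_mul hσ hs' (abs_nonneg _) (by norm_num)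
    calc _ ≤ |(y₁.2.1 - y₂.2.1) * c₁ + y₂.2.1 * (c₁ - c₂)| + |y₂.2.2 * (s₁ - s₂)| := abs_sub _ _
      _ ≤ |(y₁.2.1 - y₂.2.1) * c₁| + |y₂.2.1 * (c₁ - c₂)| + |y₂.2.2 * (s₁ - s₂)| := by
        gcongr; exact abs_add_le _ _
      _ ≤ _ := by linarith
  rw [abs_mul] at hb
  have h5 : η₁ * |y₁.2.2 - y₂.2.2| ≤ 5 * |y₁.1 - y₂.1| :=
    (mul_le_mul_of_nonneg_right hs (abs_nonneg _)).trans hb
  rw [div_mul_eq_mul_div, le_div_iff₀ hη₁]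
  linarith

end Croft.KA
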