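import Mathlib
import Pool.Agent.Helper445.Croft2.Iter2

set_option autoImplicit false

open MeasureTheory Set Filter Topology intervalIntegral
open scoped ENNReal Interval

namespace Croft.KA

/-- fixed data for the second phase -/
structure Ctx (P : ℝ → (ℝ × ℝ → ℝ) → Prop) (O : Set (ℝ × ℝ)) (a1 a2 b1 b2 : ℝ) (κ : ℝ → ℝ)
    (ι : Type) (sgn : ι → ℝ) (P0 : ι → Set (ℝ × ℝ × ℝ)) (e : ℝ × ℝ → ℝ) (ν η₁ ρ0 Lx κF : ℝ)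
    (Fh : ℝ × ℝ → ℝ) (Adm : ℝ × ℝ → ℝ → Prop) : Prop where
  hb : b1 ≤ b2
  hb1 : -1 ≤ b1
  hb2 : b2 ≤ 1
  hO : IsOpen O
  hCO : Icc a1 a2 ×ˢ Icc b1 b2 ⊆ O
  hP : PFam P
  hS : Site P O a1 a2 κ
  hsgn : ∀ i, |sgn i| = 1
  hP0 : ∀ i, P0 i ⊆ Bx a1 a2 b1 b2
  hthk : ∀ i, ∀ y ∈ thk (P0 i) ρ0, y.1 ∈ Icc a1 a2 ∧ |y.2.1| ≤ 2 ∧ |y.2.2| ≤ 2
  hν : 0 < ν
  hη₁ : 0 < η₁
  hρ0 : 0 < ρ0
  hLx : ∀ θ ∈ Icc a1 a2, |κ θ| + 2 ≤ Lx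
  hLx0 : 0 < Lx
  hmono : ∀ i, ∀ y₁ ∈ thk (P0 i) ρ0, ∀ y₂ ∈ thk (P0 i) ρ0, y₁.2.1 - κ y₁.1 = y₂.2.1 - κ y₂.1 →
     ∀ θ ∈ uIcc y₁.1 y₂.1, (θ, (y₁.2.1 - κ y₁.1) + κ θ) ∈ O ∧
       ν ≤ |e (θ, (y₁.2.1 - κ y₁.1) + κ θ)|
  hadm : ∀ l s, Adm l s → ∀ i, ∀ y ∈ thk (P0 i) ρ0, nd (pt y.1 y.2.1 y.2.2) l.1 = l.2 →
    |Fh (y.1, y.2.1) - s| ≤ κF → η₁ ≤ |Real.sin (y.1 - l.1)|

section
variable {P : ℝ → (ℝ × ℝ → ℝ) → Prop} {O : Set (ℝ × ℝ)} {a1 a2 b1 b2 : ℝ} {κ : ℝ → ℝ}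
    {ι : Type} {sgn : ι → ℝ} {P0 : ι → Set (ℝ × ℝ × ℝ)} {e : ℝ × ℝ → ℝ} {ν η₁ ρ0 Lx κF : ℝ}
    {Fh : ℝ × ℝ → ℝ} {Adm : ℝ × ℝ → ℝ → Prop}

lemma Ctx.box (c : Ctx P O a1 a2 b1 b2 κ ι sgn P0 e ν η₁ ρ0 Lx κF Fh Adm) {i : ι}
    {x : ℝ × ℝ × ℝ} (hx : x ∈ P0 i) : |x.2.1| ≤ 1 ∧ |x.2.2| ≤ 1 := by
  have h := c.hP0 i hx
  refine ⟨abs_le.mpr ⟨?_, ?_⟩, abs_le.mpr ⟨h.2.2.1, h.2.2.2⟩⟩
  · linarith [h.2.1.1, c.hb1]
  · linarith [h.2.1.2, c.hb2]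

lemma Ctx.mono (c : Ctx P O a1 a2 b1 b2 κ ι sgn P0 e ν η₁ ρ0 Lx κF Fh Adm) {i : ι}
    {F : ℝ × ℝ → ℝ} (hF : ContDiff ℝ 1 F) (he : ∀ l ∈ O, pd F l.1 l.2 (deriv κ l.1) = e l)
    {y₁ y₂ : ℝ × ℝ × ℝ} (h1 : y₁ ∈ thk (P0 i) ρ0) (h2 : y₂ ∈ thk (P0 i) ρ0)
    (hx : y₁.2.1 - κ y₁.1 = y₂.2.1 - κ y₂.1) :
    ν * |y₁.1 - y₂.1| ≤ |F (y₁.1, y₁.2.1) - F (y₂.1, y₂.2.1)| := by
  have := mono_of c.hS.hκ hF he (c.hmono i y₁ h1 y₂ h2 hx)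
  rw [show (y₁.2.1 - κ y₁.1) + κ y₁.1 = y₁.2.1 by ring] at this
  rw [show (y₁.2.1 - κ y₁.1) + κ y₂.1 = y₂.2.1 by rw [hx]; ring] at this
  exact this

lemma Ctx.lipκ (c : Ctx P O a1 a2 b1 b2 κ ι sgn P0 e ν η₁ ρ0 Lx κF Fh Adm) {θ₁ θ₂ : ℝ}
    (h1 : θ₁ ∈ Icc a1 a2) (h2 : θ₂ ∈ Icc a1 a2) : |κ θ₁ - κ θ₂| ≤ |θ₁ - θ₂| := by
  have := Convex.norm_image_sub_le_of_norm_hasDerivWithin_le (f := κ)
      (f' := fun θ => deriv κ θ) (C := 1) (s := Icc a1 a2) (x := θ₂) (y := θ₁)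
      (fun x _ => ((c.hS.hκ.differentiable (by norm_num) x).hasDerivAt).hasDerivWithinAt)
      (fun x hx => (c.hS.hb x hx).trans (by norm_num)) (convex_Icc _ _) h2 h1
  simpa using this

lemma Ctx.XS_le (c : Ctx P O a1 a2 b1 b2 κ ι sgn P0 e ν η₁ ρ0 Lx κF Fh Adm) {i : ι}
    {F : ℝ × ℝ → ℝ} {W : Set (ℝ × ℝ × ℝ)} (hW : W ⊆ P0 i) {ρ : ℝ} (hρ : ρ ≤ ρ0) (l : ℝ × ℝ) (s : ℝ) :
    volume (XS κ F W ρ l s) ≤ ENNReal.ofReal (2 * Lx) := by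
  have h : XS κ F W ρ l s ⊆ Icc (-Lx) Lx := by
    rintro x ⟨y, hy, rfl⟩
    have h1 := c.hthk i y (thk_mono hW hρ hy.1)
    have h2 := c.hLx _ h1.1
    have h3 := abs_le.mp h1.2.1
    have h4 := abs_le.mp (show |κ y.1| ≤ Lx - 2 by linarith)
    constructor <;> simp only <;> linarith [h3.1, h3.2, h4.1, h4.2]
  refine (measure_mono h).trans (le_of_eq ?_)
  rw [Real.volume_Icc]; congr 1; ring

/-- one step, one piece -/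
lemma piece_step (c : Ctx P O a1 a2 b1 b2 κ ι sgn P0 e ν η₁ ρ0 Lx κF Fh Adm) (i : ι)
    {F : ℝ × ℝ → ℝ} (hF : ContDiff ℝ 1 F) (he : ∀ l ∈ O, pd F l.1 l.2 (deriv κ l.1) = e l)
    {ρ' : ℝ} (hρ' : 0 < ρ') (hρ'0 : ρ' ≤ ρ0) (hclose : ∀ l, |F l - Fh l| + ρ' ≤ κF)
    {β : ℝ} (hβ : 0 < β) {Pi : Set (ℝ × ℝ × ℝ)} (hPi : IsCompact Pi) (hsub : Pi ⊆ P0 i)
    (hlow : ∀ x ∈ Pi, -(2 * β) ≤ sgn i * pd F x.1 x.2.1 x.2.2) {η : ℝ} (hη : 0 < η) :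
    ∃ ρ₁ > 0, ρ₁ ≤ ρ' ∧ ∃ δ₁ > 0, ∀ l s, Adm l s →
      ENNReal.ofReal (6 * β / (ν * η₁)) *
        volume (XS κ F (Pi ∩ {x | 0 ≤ sgn i * pd F x.1 x.2.1 x.2.2}) ρ₁ l s) +
      volume (VQ (Qreg F (Pi ∩ {x | sgn i * pd F x.1 x.2.1 x.2.2 ≤ 0}) δ₁) l s) ≤
      ENNReal.ofReal (6 * β / (ν * η₁)) * volume (XS κ F Pi ρ' l s) + ENNReal.ofReal η := by
  have hν := c.hν
  have hη₁ := c.hη₁
  have hLx := c.hLx0
  set g : ℝ × ℝ × ℝ → ℝ := fun x => sgn i * pd F x.1 x.2.1 x.2.2 with hg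
  have hgc : Continuous g := (continuous_pd hF).const_mul _
  have habsg : ∀ x, |pd F x.1 x.2.1 x.2.2| = |g x| := by
    intro x; simp only [hg]; rw [abs_mul, c.hsgn i, one_mul]
  set ζ : ℝ := η * ν * η₁ / (8 * Lx) with hζ
  have hζ0 : 0 < ζ := by positivity
  obtain ⟨r1, hr1, hnear⟩ := exists_near hgc hPi (lt_min hβ (half_pos hζ0))
  set K : ℝ := 2 + (1 + 5 / η₁) * (2 / ν) with hK
  have hK0 : 0 < K := by positivity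
  set ρ₁ : ℝ := min ρ' (r1 / K) with hρ₁
  have hρ₁0 : 0 < ρ₁ := lt_min hρ' (by positivity)
  have hρ₁ρ' : ρ₁ ≤ ρ' := min_le_left _ _
  have hρ₁K : ρ₁ * K ≤ r1 := by
    have : ρ₁ ≤ r1 / K := min_le_right _ _
    rwa [le_div_iff₀ hK0] at this
  set mm : ℝ := min ρ₁ r1 with hmm
  have hmm0 : 0 < mm := lt_min hρ₁0 hr1
  set δ₁ : ℝ := min (ρ₁ / 2) (min (mm * (3 * β) / 2) (mm * ζ)) with hδ₁
  have hδ₁0 : 0 < δ₁ := lt_min (by positivity) (lt_min (by positivity) (by positivity))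
  have hδ₁a : 2 * δ₁ ≤ ρ₁ := by have : δ₁ ≤ ρ₁ / 2 := min_le_left _ _; linarith
  have hδ₁b : 2 * (δ₁ / (3 * β)) ≤ mm := by
    have : δ₁ ≤ mm * (3 * β) / 2 := (min_le_right _ _).trans (min_le_left _ _)
    rw [← mul_div_assoc, div_le_iff₀ (by positivity)]; linarith
  have hδ₁c : 2 * (δ₁ / (2 * ζ)) ≤ mm := by
    have : δ₁ ≤ mm * ζ := (min_le_right _ _).trans (min_le_right _ _)
    rw [← mul_div_assoc, div_le_iff₀ (by positivity)]; linarith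
  refine ⟨ρ₁, hρ₁0, hρ₁ρ', δ₁, hδ₁0, fun l s hls => ?_⟩
  set P₁ := Pi ∩ {x | 0 ≤ sgn i * pd F x.1 x.2.1 x.2.2} with hP₁
  set W := Pi ∩ {x | sgn i * pd F x.1 x.2.1 x.2.2 ≤ 0} with hWdef
  set Wb := Pi ∩ {x | g x ≤ -ζ} with hWb
  set Ws := Pi ∩ {x | -ζ ≤ g x ∧ g x ≤ 0} with hWs
  have hWbc : IsCompact Wb := hPi.inter_right (isClosed_le hgc continuous_const)
  have hWsc : IsCompact Ws := by
    have k1 : IsClosed {x | -ζ ≤ g x} := isClosed_le continuous_const hgc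
    have k2 : IsClosed {x | g x ≤ 0} := isClosed_le hgc continuous_const
    exact hPi.inter_right (k1.inter k2)
  -- general facts on TS
  have hTSthk : ∀ {Y : Set (ℝ × ℝ × ℝ)} (hY : Y ⊆ Pi) {ρ κ' : ℝ} (hρ : ρ ≤ ρ₁),
      ∀ y ∈ TS F Y ρ κ' l s, y ∈ thk (P0 i) ρ0 := by
    intro Y hY ρ κ' hρ y hy
    exact thk_mono (hY.trans hsub) (hρ.trans (hρ₁ρ'.trans hρ'0)) hy.1
  have hTSsin : ∀ {Y : Set (ℝ × ℝ × ℝ)} (hY : Y ⊆ Pi) {ρ κ' : ℝ} (hρ : ρ ≤ ρ₁) (hκ' : κ' ≤ ρ₁),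
      ∀ y ∈ TS F Y ρ κ' l s, η₁ ≤ |Real.sin (y.1 - l.1)| := by
    intro Y hY ρ κ' hρ hκ' y hy
    refine c.hadm l s hls i y (hTSthk hY hρ y hy) hy.2.1 ?_
    have e1 : Fh (y.1, y.2.1) - s = (F (y.1, y.2.1) - s) - (F (y.1, y.2.1) - Fh (y.1, y.2.1)) := by ring
    rw [e1]
    refine (abs_sub _ _).trans ?_
    linarith [hy.2.2, hclose (y.1, y.2.1)]
  -- disjointness
  have hdisj : Disjoint (XS κ F P₁ ρ₁ l s) (XS κ F Wb ρ₁ l s) := by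
    rw [Set.disjoint_left]
    rintro x ⟨w₁, hw₁, hx₁⟩ ⟨w₂, hw₂, hx₂⟩
    simp only at hx₁ hx₂
    have k1 := hTSthk (inter_subset_left : P₁ ⊆ Pi) (le_refl _) w₁ hw₁
    have k2 := hTSthk (inter_subset_left : Wb ⊆ Pi) (le_refl _) w₂ hw₂
    have hm := c.mono hF he k1 k2 (hx₁.trans hx₂.symm)
    have hF12 : |F (w₁.1, w₁.2.1) - F (w₂.1, w₂.2.1)| ≤ 2 * ρ₁ := by
      have e1 : F (w₁.1, w₁.2.1) - F (w₂.1, w₂.2.1) = (F (w₁.1, w₁.2.1) - s) - (F (w₂.1, w₂.2.1) - s) := by ring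
      rw [e1]
      refine (abs_sub _ _).trans ?_
      linarith [hw₁.2.2, hw₂.2.2]
    have hθ : |w₁.1 - w₂.1| ≤ ρ₁ * (2 / ν) := by
      rw [mul_div_assoc', le_div_iff₀ hν]; linarith
    have b1 := c.hthk i w₁ k1
    have b2 := c.hthk i w₂ k2
    have hp : |w₁.2.1 - w₂.2.1| ≤ |w₁.1 - w₂.1| := by
      have e1 : w₁.2.1 - w₂.2.1 = κ w₁.1 - κ w₂.1 := by linarith
      rw [e1]; exact c.lipκ b1.1 b2.1
    have hσ := sigma_lip hη₁ hw₁.2.1 hw₂.2.1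
      (hTSsin (inter_subset_left : P₁ ⊆ Pi) (le_refl _) (le_refl _) w₁ hw₁) b2.2.1 b2.2.2 hp
    have h5 : 0 ≤ 5 / η₁ := by positivity
    have hd : dist w₁ w₂ ≤ (1 + 5 / η₁) * |w₁.1 - w₂.1| := by
      rw [Prod.dist_eq, Prod.dist_eq]
      refine max_le ?_ (max_le ?_ ?_)
      · rw [Real.dist_eq]; nlinarith [abs_nonneg (w₁.1 - w₂.1)]
      · rw [Real.dist_eq]; nlinarith [abs_nonneg (w₁.1 - w₂.1)]
      · rw [Real.dist_eq]; nlinarith [abs_nonneg (w₁.1 - w₂.1)]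
    obtain ⟨y₁, hy₁, hd₁⟩ := hw₁.1
    obtain ⟨y₂, hy₂, hd₂⟩ := hw₂.1
    have hdy : dist y₁ y₂ ≤ r1 := by
      calc dist y₁ y₂ ≤ dist y₁ w₁ + dist w₁ w₂ + dist w₂ y₂ := dist_triangle4 _ _ _ _
        _ ≤ ρ₁ + (1 + 5 / η₁) * (ρ₁ * (2 / ν)) + ρ₁ := by
          rw [dist_comm y₁ w₁]
          have : (1 + 5 / η₁) * |w₁.1 - w₂.1| ≤ (1 + 5 / η₁) * (ρ₁ * (2 / ν)) :=
            mul_le_mul_of_nonneg_left hθ (by positivity)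
          linarith
        _ = ρ₁ * K := by rw [hK]; ring
        _ ≤ r1 := hρ₁K
    have h6 := hnear y₂ hy₂.1 y₁ hdy
    have h7 := abs_le.mp (h6.trans (min_le_right _ _))
    have h8 : 0 ≤ g y₁ := hy₁.2
    have h9 : g y₂ ≤ -ζ := hy₂.2
    linarith [h7.2]
  -- the big windows
  have hbig : volume (VQ (Qreg F Wb δ₁) l s) ≤
      ENNReal.ofReal (6 * β / (ν * η₁)) * volume (XS κ F Wb ρ₁ l s) := by
    have hr : 0 < δ₁ / (3 * β) := by positivity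
    have := slice_le c.hS.hκ.continuous hF hWbc
      (fun x hx => c.box (hsub hx.1)) (D := 3 * β) (r := δ₁ / (3 * β)) (δ := δ₁) (ρ := ρ₁) hr hν
      (by rw [div_mul_cancel₀]; positivity) (hδ₁b.trans (min_le_left _ _)) hδ₁a
      (fun y ⟨x, hx, hd⟩ => by
        rw [habsg]
        have h1 := hnear x hx.1 y (hd.trans (hδ₁b.trans (min_le_right _ _)))
        have h2 := abs_le.mp (h1.trans (min_le_left _ _))
        have h3 : -(2 * β) ≤ g x := hlow x hx.1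
        have h4 : g x ≤ -ζ := hx.2
        rw [abs_le]; constructor <;> linarith [h2.1, h2.2]) hη₁ (l := l) (s := s)
      (hTSsin (inter_subset_left : Wb ⊆ Pi) (hδ₁b.trans (min_le_left _ _)) hδ₁a)
      (fun y₁ hy₁ y₂ hy₂ hx => c.mono hF he
        (hTSthk (inter_subset_left : Wb ⊆ Pi) (hδ₁b.trans (min_le_left _ _)) y₁ hy₁)
        (hTSthk (inter_subset_left : Wb ⊆ Pi) (hδ₁b.trans (min_le_left _ _)) y₂ hy₂) hx)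
    have h2 := of_mul_le (by positivity) this
    refine h2.trans (le_of_eq ?_)
    congr 2
    field_simp
    ring
  have hsmall : volume (VQ (Qreg F Ws δ₁) l s) ≤ ENNReal.ofReal η := by
    have hr : 0 < δ₁ / (2 * ζ) := by positivity
    have := slice_le c.hS.hκ.continuous hF hWsc
      (fun x hx => c.box (hsub hx.1)) (D := 2 * ζ) (r := δ₁ / (2 * ζ)) (δ := δ₁) (ρ := ρ₁) hr hν
      (by rw [div_mul_cancel₀]; positivity) (hδ₁c.trans (min_le_left _ _)) hδ₁a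
      (fun y ⟨x, hx, hd⟩ => by
        rw [habsg]
        have h1 := hnear x hx.1 y (hd.trans (hδ₁c.trans (min_le_right _ _)))
        have h2 := abs_le.mp (h1.trans (min_le_right _ _))
        have h3 : -ζ ≤ g x := hx.2.1
        have h4 : g x ≤ 0 := hx.2.2
        rw [abs_le]; constructor <;> linarith [h2.1, h2.2]) hη₁ (l := l) (s := s)
      (hTSsin (inter_subset_left : Ws ⊆ Pi) (hδ₁c.trans (min_le_left _ _)) hδ₁a)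
      (fun y₁ hy₁ y₂ hy₂ hx => c.mono hF he
        (hTSthk (inter_subset_left : Ws ⊆ Pi) (hδ₁c.trans (min_le_left _ _)) y₁ hy₁)
        (hTSthk (inter_subset_left : Ws ⊆ Pi) (hδ₁c.trans (min_le_left _ _)) y₂ hy₂) hx)
    have h2 := of_mul_le (by positivity) this
    refine h2.trans ?_
    calc _ ≤ ENNReal.ofReal (4 * δ₁ / ν / (2 * (δ₁ / (2 * ζ)) * η₁)) * ENNReal.ofReal (2 * Lx) := by
          gcongr
          exact c.XS_le ((inter_subset_left : Ws ⊆ Pi).trans hsub) (hρ₁ρ'.trans hρ'0) l s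
      _ = ENNReal.ofReal η := by
          rw [← ENNReal.ofReal_mul (by positivity)]
          congr 1
          rw [hζ]
          field_simp
          ring
  have hVsub : VQ (Qreg F W δ₁) l s ⊆ VQ (Qreg F Wb δ₁) l s ∪ VQ (Qreg F Ws δ₁) l s := by
    rintro u ⟨hu, x, hx, h1, h2⟩
    have hx2 : g x ≤ 0 := hx.2
    rcases le_total (g x) (-ζ) with h | h
    · left; exact ⟨hu, x, ⟨hx.1, h⟩, h1, h2⟩
    · right; exact ⟨hu, x, ⟨hx.1, h, hx2⟩, h1, h2⟩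
  have hXm : MeasurableSet (XS κ F Wb ρ₁ l s) :=
    (isCompact_XS c.hS.hκ.continuous hF.continuous hWbc ρ₁ l s).measurableSet
  calc _ ≤ ENNReal.ofReal (6 * β / (ν * η₁)) * volume (XS κ F P₁ ρ₁ l s) +
        (ENNReal.ofReal (6 * β / (ν * η₁)) * volume (XS κ F Wb ρ₁ l s) + ENNReal.ofReal η) := by
        gcongr
        refine (measure_mono hVsub).trans ((measure_union_le _ _).trans ?_)
        gcongr
    _ = ENNReal.ofReal (6 * β / (ν * η₁)) * (volume (XS κ F P₁ ρ₁ l s ∪ XS κ F Wb ρ₁ l s)) +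
        ENNReal.ofReal η := by
        rw [measure_union hdisj hXm]; ring
    _ ≤ _ := by
        gcongr
        apply union_subset
        · exact image_mono (TS_mono inter_subset_left hρ₁ρ' hρ₁ρ' l s)
        · exact image_mono (TS_mono inter_subset_left hρ₁ρ' hρ₁ρ' l s)

end

end Croft.KA
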