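import Mathlib
import Pool.Agent.Helper445.Croft2.Piece

set_option autoImplicit false

open MeasureTheory Set Filter Topology intervalIntegral
open scoped ENNReal Interval

namespace Croft.KA

lemma exists_min_pos {ι : Type} [Finite ι] (f : ι → ℝ) (hf : ∀ i, 0 < f i) : ∃ d > 0, ∀ i, d ≤ f i := by
  rcases isEmpty_or_nonempty ι with h | h
  · exact ⟨1, one_pos, fun i => (h.false i).elim⟩
  · obtain ⟨i0, hi0⟩ := Finite.exists_min f
    exact ⟨f i0, hf i0, hi0⟩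

section
variable {P : ℝ → (ℝ × ℝ → ℝ) → Prop} {O : Set (ℝ × ℝ)} {a1 a2 b1 b2 : ℝ} {κ : ℝ → ℝ}
    {ι : Type} {sgn : ι → ℝ} {P0 : ι → Set (ℝ × ℝ × ℝ)} {e : ℝ × ℝ → ℝ} {ν η₁ ρ0 Lx κF : ℝ}
    {Fh : ℝ × ℝ → ℝ} {Adm : ℝ × ℝ → ℝ → Prop}

lemma iter2 [Finite ι] (c : Ctx P O a1 a2 b1 b2 κ ι sgn P0 e ν η₁ ρ0 Lx κF Fh Adm)
    {β : ℝ} (hβ : 0 < β) (T : Finset ℝ) (hT : ∀ t ∈ T, 0 ≤ t ∧ t * β ≤ 1) (N : ℕ) :
    ∀ (F : ℝ × ℝ → ℝ), ContDiff ℝ 1 F → (∀ l ∈ O, pd F l.1 l.2 (deriv κ l.1) = e l) →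
    ∀ (Q0 : ι → Set (ℝ × ℝ × ℝ)), (∀ i, IsCompact (Q0 i)) → (∀ i, Q0 i ⊆ P0 i) →
      (∀ i, ∀ x ∈ Q0 i, 0 ≤ sgn i * pd F x.1 x.2.1 x.2.2) →
    ∀ m μ η ρ : ℝ, 0 < m → 0 < μ → 0 < η → 0 < ρ → ρ ≤ ρ0 → (∀ l, |F l - Fh l| + m + ρ ≤ κF) →
    ∃ φ, P μ φ ∧ (∀ l, |φ l| ≤ m) ∧ (∀ l ∈ O, pd φ l.1 l.2 (deriv κ l.1) = 0) ∧
      (∀ t ∈ T, ∀ θ ∈ Icc a1 a2, |Ch b1 b2 (fun l => F l + φ l) t θ| ≤
        (1 - t ^ 2 * β ^ 2 / 8) ^ N * |Ch b1 b2 F t θ| + η) ∧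
      ∃ δ > 0, ∃ Q : ι → Set (ℂ × ℝ), (∀ i, MeasurableSet (Q i)) ∧
        (∀ i, ∀ x ∈ Q0 i, sgn i * pd (fun l => F l + φ l) x.1 x.2.1 x.2.2 < 0 →
          ∀ s : ℝ, |F (x.1, x.2.1) + φ (x.1, x.2.1) - s| ≤ δ → (pt x.1 x.2.1 x.2.2, s) ∈ Q i) ∧
        (∀ i l s, Adm l s → volume (VQ (Q i) l s) ≤
          ENNReal.ofReal (6 * β / (ν * η₁)) * volume (XS κ F (Q0 i) ρ l s) + ENNReal.ofReal η) := by
  induction N with
  | zero =>
    intro F hF he Q0 hQ0c hQ0s hQ0p m μ η ρ hm hμ hη hρ hρ0 hcl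
    refine ⟨fun _ => 0, c.hP.hzero μ hμ.le, fun l => by simpa using hm.le, ?_, ?_, 1, one_pos,
      fun _ => ∅, fun _ => MeasurableSet.empty, ?_, ?_⟩
    · intro l _
      unfold pd; simp
    · intro t _ θ _
      simpa using hη.le
    · intro i x hx h
      simp only [add_zero] at h
      exact absurd h (not_lt.mpr (hQ0p i x hx))
    · intro i l s _
      have : VQ ∅ l s = ∅ := by ext u; simp [VQ]
      rw [this]; simp
  | succ N ih =>
    intro F hF he Q0 hQ0c hQ0s hQ0p m μ η ρ hm hμ hη hρ hρ0 hcl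
    have hη3 : 0 < η / 3 := by linarith
    have hb := c.hb
    obtain ⟨φ₁, h1P, h1m, h1z, h1b, h1c⟩ := one_wave2 c.hb c.hO c.hCO c.hP c.hS hβ.le T hT hF
      (lt_min (half_pos hm) (half_pos hρ)) (half_pos hμ) hη3
    have h1C := c.hP.hC1 _ _ h1P
    have h1m2 : ∀ l, |φ₁ l| ≤ m / 2 := fun l => (h1m l).trans (min_le_left _ _)
    have h1ρ2 : ∀ l, |φ₁ l| ≤ ρ / 2 := fun l => (h1m l).trans (min_le_right _ _)
    set F₁ : ℝ × ℝ → ℝ := fun l => F l + φ₁ l with hF₁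
    have hF₁C : ContDiff ℝ 1 F₁ := hF.add h1C
    have hpd1 : ∀ θ p σ, pd F₁ θ p σ = pd F θ p σ + pd φ₁ θ p σ := pd_add hF h1C
    have he₁ : ∀ l ∈ O, pd F₁ l.1 l.2 (deriv κ l.1) = e l := by
      intro l hl
      rw [hpd1, h1z l hl, he l hl, add_zero]
    have hcl1 : ∀ l, |F₁ l - Fh l| ≤ |F l - Fh l| + ρ / 2 := by
      intro l
      have e1 : F₁ l - Fh l = (F l - Fh l) + φ₁ l := by simp only [hF₁]; ring
      rw [e1]
      exact (abs_add_le _ _).trans (by linarith [h1ρ2 l])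
    have hlow : ∀ i, ∀ x ∈ Q0 i, -(2 * β) ≤ sgn i * pd F₁ x.1 x.2.1 x.2.2 := by
      intro i x hx
      have h2 := c.hP0 i (hQ0s i hx)
      have h3 := h1b x.1 h2.1 x.2.1 h2.2.1 x.2.2 h2.2.2
      have h4 : |sgn i * pd φ₁ x.1 x.2.1 x.2.2| ≤ 2 * β := by
        rw [abs_mul, c.hsgn i, one_mul]; exact h3
      rw [hpd1, mul_add]
      linarith [hQ0p i x hx, (abs_le.mp h4).1]
    have hstep := fun i => piece_step c i hF₁C he₁ (half_pos hρ) (by linarith : ρ / 2 ≤ ρ0)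
      (fun l => by linarith [hcl1 l, hcl l]) hβ (hQ0c i) (hQ0s i) (hlow i) hη3
    choose ρ₁ hρ₁0 hρ₁ρ δ₁ hδ₁0 hst using hstep
    obtain ⟨ρm, hρm0, hρm⟩ := exists_min_pos ρ₁ hρ₁0
    obtain ⟨δm, hδm0, hδm⟩ := exists_min_pos δ₁ hδ₁0
    have hgc : ∀ i, Continuous (fun x : ℝ × ℝ × ℝ => sgn i * pd F₁ x.1 x.2.1 x.2.2) :=
      fun i => (continuous_pd hF₁C).const_mul _
    set Q1 : ι → Set (ℝ × ℝ × ℝ) := fun i => Q0 i ∩ {x | 0 ≤ sgn i * pd F₁ x.1 x.2.1 x.2.2} with hQ1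
    set W : ι → Set (ℝ × ℝ × ℝ) := fun i => Q0 i ∩ {x | sgn i * pd F₁ x.1 x.2.1 x.2.2 ≤ 0} with hW
    have hQ1c : ∀ i, IsCompact (Q1 i) := fun i =>
      (hQ0c i).inter_right (isClosed_le continuous_const (hgc i))
    have hWc : ∀ i, IsCompact (W i) := fun i =>
      (hQ0c i).inter_right (isClosed_le (hgc i) continuous_const)
    have hρm2 : min ρm (ρ / 2) ≤ ρ / 2 := min_le_right _ _
    have hρm1 : min ρm (ρ / 2) ≤ ρm := min_le_left _ _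
    obtain ⟨φ₂, h2P, h2m, h2z, h2c, δ, hδ, Q, hQm, hQs, hQv⟩ := ih F₁ hF₁C he₁ Q1 hQ1c
      (fun i x hx => hQ0s i hx.1) (fun i x hx => hx.2) (min (m / 2) (δm / 2)) (μ / 2) (η / 3)
      (min ρm (ρ / 2)) (lt_min (half_pos hm) (half_pos hδm0)) (half_pos hμ) hη3
      (lt_min hρm0 (half_pos hρ)) (hρm2.trans (by linarith))
      (fun l => by
        have := min_le_left (m / 2) (δm / 2)
        linarith [hcl1 l, hcl l])
    have h2C := c.hP.hC1 _ _ h2P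
    have h2m2 : ∀ l, |φ₂ l| ≤ m / 2 := fun l => (h2m l).trans (min_le_left _ _)
    have h2δ : ∀ l, |φ₂ l| ≤ δm / 2 := fun l => (h2m l).trans (min_le_right _ _)
    have hfun : (fun l => F l + (φ₁ l + φ₂ l)) = fun l => F₁ l + φ₂ l := by
      funext l; simp only [hF₁]; ring
    refine ⟨fun l => φ₁ l + φ₂ l, ?_, ?_, ?_, ?_, min δ (δm / 2), lt_min hδ (half_pos hδm0),
      fun i => Q i ∪ Qreg F₁ (W i) (δ₁ i), ?_, ?_, ?_⟩
    · have := c.hP.hadd _ _ _ _ h1P h2P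
      simpa using this
    · intro l
      refine (abs_add_le _ _).trans ?_
      linarith [h1m2 l, h2m2 l]
    · intro l hl
      rw [pd_add h1C h2C, h1z l hl, h2z l hl, add_zero]
    · intro t ht θ hθ
      rw [hfun]
      have e1 := h2c t ht θ hθ
      have e2 := h1c t ht θ hθ
      have e3 : 0 ≤ 1 - t ^ 2 * β ^ 2 / 8 := by
        have h4 : (t * β) ^ 2 ≤ 1 := by
          have := hT t ht
          exact pow_le_one₀ (mul_nonneg this.1 hβ.le) this.2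
        nlinarith
      have e5 : (1 - t ^ 2 * β ^ 2 / 8) ≤ 1 := by
        have : 0 ≤ t ^ 2 * β ^ 2 := by positivity
        linarith
      have e4 : (1 - t ^ 2 * β ^ 2 / 8) ^ N ≤ 1 := pow_le_one₀ e3 e5
      have e6 : 0 ≤ (1 - t ^ 2 * β ^ 2 / 8) ^ N := pow_nonneg e3 N
      calc _ ≤ (1 - t ^ 2 * β ^ 2 / 8) ^ N * |Ch b1 b2 F₁ t θ| + η / 3 := e1
        _ ≤ (1 - t ^ 2 * β ^ 2 / 8) ^ N * ((1 - t ^ 2 * β ^ 2 / 8) * |Ch b1 b2 F t θ| + η / 3) + η / 3 := by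
          gcongr
        _ ≤ _ := by
          have e7 : (1 - t ^ 2 * β ^ 2 / 8) ^ N * (η / 3) ≤ 1 * (η / 3) :=
            mul_le_mul_of_nonneg_right e4 hη3.le
          have e8 : (1 - t ^ 2 * β ^ 2 / 8) ^ N * ((1 - t ^ 2 * β ^ 2 / 8) * |Ch b1 b2 F t θ| + η / 3) + η / 3
            = (1 - t ^ 2 * β ^ 2 / 8) ^ (N + 1) * |Ch b1 b2 F t θ| +
              (1 - t ^ 2 * β ^ 2 / 8) ^ N * (η / 3) + η / 3 := by ring
          rw [e8]
          linarith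
    · intro i
      exact (hQm i).union (isCompact_Qreg hF₁C.continuous (hWc i) _).measurableSet
    · intro i x hx hneg s hs
      rw [hfun] at hneg
      by_cases hx1 : x ∈ Q1 i
      · left
        refine hQs i x hx1 hneg s ?_
        rw [show F₁ (x.1, x.2.1) + φ₂ (x.1, x.2.1) - s =
          F (x.1, x.2.1) + (φ₁ (x.1, x.2.1) + φ₂ (x.1, x.2.1)) - s by simp only [hF₁]; ring]
        exact hs.trans (min_le_left _ _)
      · right
        refine ⟨x, ⟨hx, ?_⟩, rfl, ?_⟩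
        · by_contra h
          have h' := not_le.mp (show ¬ (sgn i * pd F₁ x.1 x.2.1 x.2.2 ≤ 0) from h)
          exact hx1 ⟨hx, h'.le⟩
        · have e1 : F₁ (x.1, x.2.1) - s = (F (x.1, x.2.1) + (φ₁ (x.1, x.2.1) + φ₂ (x.1, x.2.1)) - s)
              + (- φ₂ (x.1, x.2.1)) := by simp only [hF₁]; ring
          simp only
          rw [e1]
          refine (abs_add_le _ _).trans ?_
          rw [abs_neg]
          have e2 := h2δ (x.1, x.2.1)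
          have e3 := hs.trans (min_le_right _ _)
          have e4 := hδm i
          linarith
    · intro i l s hls
      have e1 := hQv i l s hls
      have e2 := hst i l s hls
      have e3 : XS κ F₁ (Q1 i) (min ρm (ρ / 2)) l s ⊆ XS κ F₁ (Q1 i) (ρ₁ i) l s :=
        image_mono (TS_mono (le_refl _) (hρm1.trans (hρm i)) (hρm1.trans (hρm i)) l s)
      have e4 : XS κ F₁ (Q0 i) (ρ / 2) l s ⊆ XS κ F (Q0 i) ρ l s := by
        apply image_mono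
        rintro y ⟨hy1, hy2, hy3⟩
        refine ⟨thk_mono (le_refl _) (by linarith) hy1, hy2, ?_⟩
        have e5 : F (y.1, y.2.1) - s = (F₁ (y.1, y.2.1) - s) - φ₁ (y.1, y.2.1) := by
          simp only [hF₁]; ring
        rw [e5]
        refine (abs_sub _ _).trans ?_
        linarith [h1ρ2 (y.1, y.2.1)]
      have e5 : VQ (Q i ∪ Qreg F₁ (W i) (δ₁ i)) l s ⊆ VQ (Q i) l s ∪ VQ (Qreg F₁ (W i) (δ₁ i)) l s := by
        rintro u ⟨hu, h⟩
        rcases h with h | h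
        · left; exact ⟨hu, h⟩
        · right; exact ⟨hu, h⟩
      calc volume (VQ (Q i ∪ Qreg F₁ (W i) (δ₁ i)) l s) ≤
          volume (VQ (Q i) l s) + volume (VQ (Qreg F₁ (W i) (δ₁ i)) l s) :=
            (measure_mono e5).trans (measure_union_le _ _)
        _ ≤ (ENNReal.ofReal (6 * β / (ν * η₁)) * volume (XS κ F₁ (Q1 i) (min ρm (ρ / 2)) l s)
              + ENNReal.ofReal (η / 3)) + volume (VQ (Qreg F₁ (W i) (δ₁ i)) l s) := by gcongr
        _ ≤ (ENNReal.ofReal (6 * β / (ν * η₁)) * volume (XS κ F₁ (Q1 i) (ρ₁ i) l s)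
              + ENNReal.ofReal (η / 3)) + volume (VQ (Qreg F₁ (W i) (δ₁ i)) l s) := by gcongr
        _ = (ENNReal.ofReal (6 * β / (ν * η₁)) * volume (XS κ F₁ (Q1 i) (ρ₁ i) l s)
              + volume (VQ (Qreg F₁ (W i) (δ₁ i)) l s)) + ENNReal.ofReal (η / 3) := by ring
        _ ≤ (ENNReal.ofReal (6 * β / (ν * η₁)) * volume (XS κ F₁ (Q0 i) (ρ / 2) l s)
              + ENNReal.ofReal (η / 3)) + ENNReal.ofReal (η / 3) := by gcongr
        _ ≤ (ENNReal.ofReal (6 * β / (ν * η₁)) * volume (XS κ F (Q0 i) ρ l s)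
              + ENNReal.ofReal (η / 3)) + ENNReal.ofReal (η / 3) := by gcongr
        _ = ENNReal.ofReal (6 * β / (ν * η₁)) * volume (XS κ F (Q0 i) ρ l s) +
              (ENNReal.ofReal (η / 3) + ENNReal.ofReal (η / 3)) := by ring
        _ ≤ _ := by
            gcongr
            rw [← ENNReal.ofReal_add hη3.le hη3.le]
            apply ENNReal.ofReal_le_ofReal
            linarith

end

end Croft.KA
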