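import Mathlib
import Pool.Agent.Helper445.Croft.Kill
import Pool.Agent.Helper445.Croft2.IterB

set_option autoImplicit false

open MeasureTheory Set Filter Topology intervalIntegral
open scoped ENNReal Interval

namespace Croft.KA

section
variable {P : ℝ → (ℝ × ℝ → ℝ) → Prop} {O : Set (ℝ × ℝ)} {a1 a2 b1 b2 : ℝ} {κ : ℝ → ℝ}
    {ι : Type} {sgn : ι → ℝ} {P0 : ι → Set (ℝ × ℝ × ℝ)} {e : ℝ × ℝ → ℝ} {ν η₁ ρ0 Lx κF : ℝ}
    {Fh : ℝ × ℝ → ℝ} {Adm : ℝ × ℝ → ℝ → Prop}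

lemma phase2 [Finite ι] (c : Ctx P O a1 a2 b1 b2 κ ι sgn P0 e ν η₁ ρ0 Lx κF Fh Adm)
    {β M ϵ : ℝ} (hβ : 0 < β) (hβM : β ≤ M) (hϵ : 0 < ϵ)
    {F : ℝ × ℝ → ℝ} (hF : ContDiff ℝ 1 F) (he : ∀ l ∈ O, pd F l.1 l.2 (deriv κ l.1) = e l)
    {Q0 : ι → Set (ℝ × ℝ × ℝ)} (hQ0c : ∀ i, IsCompact (Q0 i)) (hQ0s : ∀ i, Q0 i ⊆ P0 i)
    (hQ0p : ∀ i, ∀ x ∈ Q0 i, 0 ≤ sgn i * pd F x.1 x.2.1 x.2.2)
    {m μ η ρ : ℝ} (hm : 0 < m) (hμ : 0 < μ) (hη : 0 < η) (hρ : 0 < ρ) (hρ0 : ρ ≤ ρ0)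
    (hcl : ∀ l, |F l - Fh l| + m + ρ ≤ κF) :
    ∃ φ, P μ φ ∧ (∀ l, |φ l| ≤ m) ∧ (∀ l ∈ O, pd φ l.1 l.2 (deriv κ l.1) = 0) ∧
      (∀ θ ∈ Icc a1 a2, volume {p | p ∈ Icc b1 b2 ∧ |dp (fun l => F l + φ l) (θ, p)| ≤ M}
        ≤ ENNReal.ofReal ϵ) ∧
      ∃ δ > 0, ∃ Q : ι → Set (ℂ × ℝ), (∀ i, MeasurableSet (Q i)) ∧
        (∀ i, ∀ x ∈ Q0 i, sgn i * pd (fun l => F l + φ l) x.1 x.2.1 x.2.2 < 0 →
          ∀ s : ℝ, |F (x.1, x.2.1) + φ (x.1, x.2.1) - s| ≤ δ → (pt x.1 x.2.1 x.2.2, s) ∈ Q i) ∧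
        (∀ i l s, Adm l s → volume (VQ (Q i) l s) ≤
          ENNReal.ofReal (6 * β / (ν * η₁)) * volume (XS κ F (Q0 i) ρ l s) + ENNReal.ofReal η) := by
  have hb := c.hb
  have hM : 0 < M := lt_of_lt_of_le hβ hβM
  obtain ⟨n0, hn0⟩ := exists_nat_ge (8 * (b2 - b1) / ϵ)
  set n : ℕ := n0 + 1 with hn
  have hnpos : 0 < n := Nat.succ_pos _
  have hn' : (0:ℝ) < n := by exact_mod_cast hnpos
  have hn1 : (b2 - b1) / n ≤ ϵ / 8 := by
    rw [div_le_iff₀ hn']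
    rw [div_le_iff₀ hϵ] at hn0
    have : (n0 : ℝ) ≤ n := by rw [hn]; push_cast; linarith
    nlinarith
  set T : Finset ℝ := (Finset.Ico 1 n).image (fun j : ℕ => (j : ℝ) / (n * M)) with hT
  have hTn : ∀ t ∈ T, 0 ≤ t ∧ t * β ≤ 1 := by
    intro t ht
    rw [hT, Finset.mem_image] at ht
    obtain ⟨j, hj, rfl⟩ := ht
    have hj' : (j : ℝ) ≤ n := by exact_mod_cast (Finset.mem_Ico.mp hj).2.le
    refine ⟨by positivity, ?_⟩
    rw [div_mul_eq_mul_div, div_le_one (by positivity)]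
    exact mul_le_mul hj' hβM hβ.le hn'.le
  set r : ℝ := 1 - β ^ 2 / (8 * n ^ 2 * M ^ 2) with hr
  have hr1 : r < 1 := by
    have : 0 < β ^ 2 / (8 * n ^ 2 * M ^ 2) := by positivity
    linarith
  have hr0 : 0 ≤ r := by
    have h1 : β ^ 2 / (8 * n ^ 2 * M ^ 2) ≤ 1 := by
      rw [div_le_one (by positivity)]
      have h2 : β ^ 2 ≤ M ^ 2 := by gcongr
      have h3 : (1:ℝ) ≤ n := by exact_mod_cast hnpos
      have h4 : (1:ℝ) ≤ (n:ℝ) ^ 2 := one_le_pow₀ h3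
      nlinarith [sq_nonneg M]
    linarith
  obtain ⟨N, hN⟩ : ∃ N : ℕ, r ^ N * (b2 - b1) ≤ ϵ / 16 := by
    have h1 : Tendsto (fun N : ℕ => r ^ N * (b2 - b1)) atTop (𝓝 (0 * (b2 - b1))) :=
      (tendsto_pow_atTop_nhds_zero_of_lt_one hr0 hr1).mul_const _
    rw [zero_mul] at h1
    obtain ⟨N, hN⟩ := (h1.eventually (gt_mem_nhds (by linarith : (0:ℝ) < ϵ / 16))).exists
    exact ⟨N, hN.le⟩
  have hη' : 0 < min η (ϵ / 16) := lt_min hη (by linarith)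
  obtain ⟨φ, h1, h2, h3, h4, δ, hδ, Q, hQ1, hQ2, hQ3⟩ := iter2 c hβ T hTn N F hF he
    Q0 hQ0c hQ0s hQ0p m μ _ ρ hm hμ hη' hρ hρ0 hcl
  refine ⟨φ, h1, h2, h3, ?_, δ, hδ, Q, hQ1, hQ2, ?_⟩
  · intro θ hθ
    have hφC := c.hP.hC1 _ _ h1
    have hFφ : ContDiff ℝ 1 (fun l => F l + φ l) := hF.add hφC
    have hg : Continuous (fun p => dp (fun l => F l + φ l) (θ, p)) :=
      (continuous_dp hFφ).comp (by fun_prop)
    refine (small_values hg hb hM hnpos (e := ϵ / 8) (by linarith) ?_).trans ?_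
    · intro j hj
      have hjT : (j : ℝ) / (n * M) ∈ T := by
        rw [hT]; exact Finset.mem_image_of_mem _ hj
      have h5 := h4 _ hjT θ hθ
      refine h5.trans ?_
      have h6 : (1 - ((j : ℝ) / (n * M)) ^ 2 * β ^ 2 / 8) ^ N ≤ r ^ N := by
        apply pow_le_pow_left₀
        · have h7 := hTn _ hjT
          have h8 : (((j : ℝ) / (n * M)) * β) ^ 2 ≤ 1 :=
            pow_le_one₀ (mul_nonneg h7.1 hβ.le) h7.2
          nlinarith
        · rw [hr]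
          have hj1 : (1:ℝ) ≤ j := by exact_mod_cast (Finset.mem_Ico.mp hj).1
          have h8 : β ^ 2 / (8 * n ^ 2 * M ^ 2) = (1 / (n * M)) ^ 2 * β ^ 2 / 8 := by
            field_simp
          rw [h8]
          have h9 : (1 / (n * M)) ^ 2 ≤ ((j : ℝ) / (n * M)) ^ 2 := by gcongr
          have h10 := mul_le_mul_of_nonneg_right h9 (sq_nonneg β)
          linarith
      have h11 : (1 - ((j : ℝ) / (n * M)) ^ 2 * β ^ 2 / 8) ^ N * |Ch b1 b2 F ((j : ℝ) / (n * M)) θ| ≤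
          r ^ N * (b2 - b1) :=
        mul_le_mul h6 (abs_Ch_le hb _ _ _) (abs_nonneg _) (pow_nonneg hr0 N)
      have h12 := min_le_right η (ϵ / 16)
      linarith
    · apply ENNReal.ofReal_le_ofReal
      linarith
  · intro i l s hls
    refine (hQ3 i l s hls).trans ?_
    gcongr
    exact min_le_left _ _

end

/-- full windows: slices are small for most levels, uniformly over the admissible lines -/
lemma bad_slices {F : ℝ × ℝ → ℝ} (hF : ContDiff ℝ 1 F) {W : Set (ℝ × ℝ × ℝ)} (hW : IsCompact W)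
    (hWb : ∀ x ∈ W, |x.2.1| ≤ 1 ∧ |x.2.2| ≤ 1) {Zb : Set (ℝ × ℝ)} (hZb : IsCompact Zb)
    {D r0 κ1 η₁ ε' : ℝ} (hD : 0 < D) (hr0 : 0 < r0) (hκ1 : 0 < κ1) (hη₁ : 0 < η₁) (hε' : 0 < ε')
    (hpd : ∀ y ∈ thk W (2 * r0), |pd F y.1 y.2.1 y.2.2| ≤ D ∧ (y.1, y.2.1) ∈ Zb)
    {Adm : ℝ × ℝ → ℝ → Prop}
    (hadm : ∀ l s, Adm l s → ∀ y ∈ thk W (2 * r0), nd (pt y.1 y.2.1 y.2.2) l.1 = l.2 →
      |F (y.1, y.2.1) - s| ≤ κ1 → η₁ ≤ |Real.sin (y.1 - l.1)|) :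
    ∃ δ > 0, ∃ S : Set ℝ, volume S ≤ ENNReal.ofReal (2 * D / (η₁ * ε')) * volume Zb ∧
      ∀ s ∉ S, ∀ l, Adm l s → volume (VQ (Qreg F W δ) l s) ≤ ENNReal.ofReal ε' := by
  set δ : ℝ := min (κ1 / 2) (D * r0) with hδ
  have hδ0 : 0 < δ := lt_min (by positivity) (by positivity)
  have hδκ : 2 * δ ≤ κ1 := by have : δ ≤ κ1 / 2 := min_le_left _ _; linarith
  set r : ℝ := δ / D with hr
  have hrpos : 0 < r := by positivity
  have hrr0 : r ≤ r0 := by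
    rw [hr, div_le_iff₀ hD]
    have : δ ≤ D * r0 := min_le_right _ _
    linarith
  have hrD : r * D ≤ δ := by rw [hr, div_mul_cancel₀ _ hD.ne']
  set 𝒵 : Set ((ℝ × ℝ) × ℝ) := {y | y.1 ∈ Zb ∧ |F y.1 - y.2| ≤ 2 * δ} with h𝒵
  have h𝒵m : MeasurableSet 𝒵 := by
    have k1 : MeasurableSet {y : (ℝ × ℝ) × ℝ | y.1 ∈ Zb} := measurable_fst hZb.measurableSet
    have k2 : MeasurableSet {y : (ℝ × ℝ) × ℝ | |F y.1 - y.2| ≤ 2 * δ} := by
      have := hF.continuous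
      exact (isClosed_le (by fun_prop) continuous_const).measurableSet
    exact k1.inter k2
  set g : ℝ → ℝ≥0∞ := fun s => volume ((fun x : ℝ × ℝ => (x, s)) ⁻¹' 𝒵) with hg
  have hgm : Measurable g := measurable_measure_prodMk_right h𝒵m
  have hgint : ∫⁻ s, g s = ENNReal.ofReal (4 * δ) * volume Zb := by
    have h1 : (volume : Measure ((ℝ × ℝ) × ℝ)) 𝒵 = ∫⁻ s, g s := by
      rw [Measure.volume_eq_prod, Measure.prod_apply_symm h𝒵m]
    have h2 : (volume : Measure ((ℝ × ℝ) × ℝ)) 𝒵 = ENNReal.ofReal (4 * δ) * volume Zb := by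
      rw [Measure.volume_eq_prod, Measure.prod_apply h𝒵m, ← setLIntegral_const,
        ← lintegral_indicator hZb.measurableSet]
      congr 1
      funext x
      by_cases hx : x ∈ Zb
      · rw [indicator_of_mem hx]
        have : Prod.mk x ⁻¹' 𝒵 = Icc (F x - 2 * δ) (F x + 2 * δ) := by
          ext s
          simp only [h𝒵, mem_preimage, mem_ofPred_eq, hx, true_and, mem_Icc, abs_le]
          constructor
          · rintro ⟨h1, h2⟩; constructor <;> linarith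
          · rintro ⟨h1, h2⟩; constructor <;> linarith
        rw [this, Real.volume_Icc]
        congr 1; ring
      · rw [indicator_of_notMem hx]
        have : Prod.mk x ⁻¹' 𝒵 = ∅ := by
          ext s
          simp [h𝒵, hx]
        rw [this, measure_empty]
    rw [← h1, h2]
  have hc0 : 0 < ε' * (2 * r * η₁) := by positivity
  refine ⟨δ, hδ0, {s | ENNReal.ofReal (ε' * (2 * r * η₁)) ≤ g s}, ?_, ?_⟩
  · have h1 := meas_ge_le_lintegral_div (μ := volume) hgm.aemeasurable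
      (ε := ENNReal.ofReal (ε' * (2 * r * η₁))) (by simpa using hc0) ENNReal.ofReal_ne_top
    refine h1.trans ?_
    rw [hgint, ENNReal.div_eq_inv_mul, ← mul_assoc, ← ENNReal.ofReal_inv_of_pos hc0,
      ← ENNReal.ofReal_mul (by positivity)]
    gcongr
    rw [hr]
    apply le_of_eq
    field_simp
    ring
  · intro s hs l hls
    simp only [mem_ofPred_eq, not_le] at hs
    have h1 := cover hF hW hWb hrpos hrD
      (fun x hx y hy => (hpd y ⟨x, hx, hy.trans (by linarith)⟩).1) hη₁ (l := l) (s := s)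
      (Z := (fun x : ℝ × ℝ => (x, s)) ⁻¹' 𝒵) (measurable_prodMk_right h𝒵m)
      (fun x hx y hy h1 h2 => by
        have hy' : y ∈ thk W (2 * r0) := ⟨x, hx, hy.trans (by linarith)⟩
        exact ⟨hadm l s hls y hy' h1 (h2.trans hδκ), (hpd y hy').2, h2⟩)
    have h2 : ENNReal.ofReal (2 * r * η₁) * volume (VQ (Qreg F W δ) l s) ≤
        ENNReal.ofReal (ε' * (2 * r * η₁)) * 1 := by
      rw [mul_one]; exact h1.trans hs.le
    have h3 := of_mul_le (by positivity) h2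
    rw [mul_one] at h3
    refine h3.trans (le_of_eq ?_)
    congr 1
    field_simp

/-- crossing angles are bounded below for lines away from the level -/
lemma exists_angle {F : ℝ × ℝ → ℝ} (hF : ContDiff ℝ 1 F) (a1 a2 : ℝ) (haw : a2 - a1 ≤ 1 / 2)
    {τ : ℝ} (hτ : 0 < τ) :
    ∃ η₁ > 0, ∀ l : ℝ × ℝ, l.1 ∈ Icc (a1 - 5 / 3) (a2 + 5 / 3) → ∀ s : ℝ, τ ≤ |F l - s| →
      ∀ y : ℝ × ℝ × ℝ, y.1 ∈ Icc (a1 - 1 / 4) (a2 + 1 / 4) → |y.2.1| ≤ 2 → |y.2.2| ≤ 2 →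
      nd (pt y.1 y.2.1 y.2.2) l.1 = l.2 → |F (y.1, y.2.1) - s| ≤ τ / 2 →
      η₁ ≤ |Real.sin (y.1 - l.1)| := by
  -- bound of the pencil derivative
  have hcomp : IsCompact (Icc (a1 - 2) (a2 + 2) ×ˢ (Icc (-3 : ℝ) 3 ×ˢ Icc (-3 : ℝ) 3)) :=
    isCompact_Icc.prod (isCompact_Icc.prod isCompact_Icc)
  obtain ⟨D0, hD0⟩ := hcomp.exists_bound_of_continuousOn (continuous_pd hF).continuousOn
  set D : ℝ := max D0 1 with hD
  have hD1 : 1 ≤ D := le_max_right _ _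
  set x0 : ℝ := min 1 (τ / (2 * D)) with hx0
  have hx00 : 0 < x0 := lt_min one_pos (by positivity)
  set K : Set ℝ := {x | x0 ≤ |x| ∧ |x| ≤ 5 / 2} with hK
  have hKc : IsCompact K := by
    have h1 : K = Icc (-(5/2)) (5/2) ∩ {x | x0 ≤ |x|} := by
      ext x
      simp only [hK, mem_ofPred_eq, mem_inter_iff, mem_Icc, abs_le]
      tauto
    rw [h1]
    exact isCompact_Icc.inter_right (isClosed_le continuous_const continuous_abs)
  have hKne : K.Nonempty := ⟨1, by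
    simp only [hK, mem_ofPred_eq, abs_one]
    exact ⟨min_le_left _ _, by norm_num⟩⟩
  obtain ⟨xm, hxm, hmin⟩ := hKc.exists_isMinOn hKne
    (f := fun x : ℝ => |Real.sin x|) (by fun_prop)
  have hsinpos : ∀ x ∈ K, 0 < |Real.sin x| := by
    intro x hx
    rw [abs_pos]
    intro h
    have hx1 : x ≠ 0 := by
      intro h0; have := hx.1; rw [h0, abs_zero] at this; linarith
    have hx2 := abs_le.mp hx.2
    have hpi := Real.pi_gt_three
    have := (Real.sin_eq_zero_iff_of_lt_of_lt (x := x) (by linarith [hx2.1]) (by linarith [hx2.2])).mp h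
    exact hx1 this
  refine ⟨|Real.sin xm|, hsinpos xm hxm, ?_⟩
  intro l hl s hs y hy1 hy2 hy3 hnd hFs
  apply hmin
  set z : ℂ := pt y.1 y.2.1 y.2.2 with hz
  have hzn : ‖z‖ ≤ 3 := by
    have h1 := norm_pt_sq' y.1 y.2.1 y.2.2
    have h2 : y.2.1 ^ 2 ≤ 4 := by
      have := abs_le.mp hy2; nlinarith [this.1, this.2]
    have h3 : y.2.2 ^ 2 ≤ 4 := by
      have := abs_le.mp hy3; nlinarith [this.1, this.2]
    nlinarith [norm_nonneg z]
  have e1 : nd z y.1 = y.2.1 := by rw [hz, nd_pt]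
  have hdiff : |F (y.1, nd z y.1) - F (l.1, nd z l.1)| ≤ D * |y.1 - l.1| := by
    have := Convex.norm_image_sub_le_of_norm_hasDerivWithin_le (f := fun θ => F (θ, nd z θ))
        (f' := fun θ => pd F θ (nd z θ) (td z θ)) (C := D) (s := Icc (a1 - 2) (a2 + 2)) (x := l.1) (y := y.1)
        (fun ϑ _ => (hasDerivAt_pencil hF z ϑ).hasDerivWithinAt)
        (fun ϑ hϑ => by
          refine (hD0 (ϑ, nd z ϑ, td z ϑ) ⟨hϑ, ?_, ?_⟩).trans (le_max_left _ _)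
          · exact abs_le.mp ((abs_nd_le z ϑ).trans hzn)
          · exact abs_le.mp ((abs_td_le z ϑ).trans hzn)) (convex_Icc _ _)
        ⟨by linarith [hl.1], by linarith [hl.2]⟩ ⟨by linarith [hy1.1], by linarith [hy1.2]⟩
    simpa using this
  rw [hnd, e1] at hdiff
  have h5 : τ / 2 ≤ D * |y.1 - l.1| := by
    have e2 : F (l.1, l.2) - s = (F (y.1, y.2.1) - s) - (F (y.1, y.2.1) - F (l.1, l.2)) := by ring
    have e3 : |F l - s| ≤ |F (y.1, y.2.1) - s| + |F (y.1, y.2.1) - F (l.1, l.2)| := by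
      change |F (l.1, l.2) - s| ≤ _
      rw [e2]
      exact abs_sub _ _
    linarith
  refine ⟨?_, ?_⟩
  · refine (min_le_right _ _).trans ?_
    rw [div_le_iff₀ (by positivity)]
    linarith
  · rw [abs_le]
    constructor <;> linarith [hl.1, hl.2, hy1.1, hy1.2]

end Croft.KA
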