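import Mathlib
import Pool.Agent.Helper445.Croft2.Bad

set_option autoImplicit false

open MeasureTheory Set Filter Topology intervalIntegral
open scoped ENNReal Interval

namespace Croft.KA

lemma bad_pack {F : ℝ × ℝ → ℝ} (hF : ContDiff ℝ 1 F) {c1 c2 d1 d2 κ0 : ℝ}
    (hκ0 : 0 < κ0) (hκ1 : κ0 ≤ 1 / 4) (hdl : -1 ≤ d1 - κ0) (hdr : d2 + κ0 ≤ 1)
    {κ' : ℝ → ℝ} (hκb : ∀ θ ∈ Icc (c1 - κ0) (c2 + κ0), |κ' θ| ≤ 1 / 2) {E M ϵ : ℝ} (hE0 : 0 < E)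
    (hM : 0 < M) (hϵ : 0 ≤ ϵ)
    (hE : ∀ θ ∈ Icc (c1 - κ0) (c2 + κ0), ∀ p ∈ Icc (d1 - κ0) (d2 + κ0), |pd F θ p (κ' θ)| ≤ E)
    (hbad : ∀ θ ∈ Icc (c1 - κ0) (c2 + κ0),
      volume {p | p ∈ Icc (d1 - κ0) (d2 + κ0) ∧ |dp F (θ, p)| ≤ 2 * M} ≤ ENNReal.ofReal ϵ)
    {κ1 η₁ ε' : ℝ} (hκ1' : 0 < κ1) (hη₁ : 0 < η₁) (hε' : 0 < ε')
    {Adm : ℝ × ℝ → ℝ → Prop}
    (hadm : ∀ l s, Adm l s → ∀ y : ℝ × ℝ × ℝ, y.1 ∈ Icc (c1 - 1 / 4) (c2 + 1 / 4) → |y.2.1| ≤ 2 →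
      |y.2.2| ≤ 2 → nd (pt y.1 y.2.1 y.2.2) l.1 = l.2 →
      |F (y.1, y.2.1) - s| ≤ κ1 → η₁ ≤ |Real.sin (y.1 - l.1)|) :
    ∃ δ > 0, MeasurableSet (Qreg F (Bx c1 c2 d1 d2 ∩ {x | |dp F (x.1, x.2.1)| ≤ M}) δ) ∧
      ∃ S : Set ℝ, volume S ≤ ENNReal.ofReal (2 * (E + 5 * M) / (η₁ * ε') * ((c2 - c1 + 2 * κ0) * ϵ)) ∧
      ∀ s ∉ S, ∀ l, Adm l s →
        volume (VQ (Qreg F (Bx c1 c2 d1 d2 ∩ {x | |dp F (x.1, x.2.1)| ≤ M}) δ) l s) ≤ ENNReal.ofReal ε' := by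
  have hdpc : Continuous (fun x : ℝ × ℝ × ℝ => dp F (x.1, x.2.1)) :=
    (continuous_dp hF).comp (by fun_prop)
  set W := Bx c1 c2 d1 d2 ∩ {x | |dp F (x.1, x.2.1)| ≤ M} with hWdef
  have hW : IsCompact W := (isCompact_Bx _ _ _ _).inter_right (isClosed_le hdpc.abs continuous_const)
  set Zb : Set (ℝ × ℝ) := (Icc (c1 - κ0) (c2 + κ0) ×ˢ Icc (d1 - κ0) (d2 + κ0)) ∩
    {l | |dp F l| ≤ 2 * M} with hZbdef
  have hZb : IsCompact Zb := (isCompact_Icc.prod isCompact_Icc).inter_right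
    (isClosed_le (continuous_dp hF).abs continuous_const)
  obtain ⟨r1, hr1, hnear⟩ := exists_near hdpc hW hM
  set r0 : ℝ := min (r1 / 2) (κ0 / 2) with hr0def
  have hr0 : 0 < r0 := lt_min (by positivity) (by positivity)
  have hr0a : 2 * r0 ≤ r1 := by have : r0 ≤ r1 / 2 := min_le_left _ _; linarith
  have hr0b : 2 * r0 ≤ κ0 := by have : r0 ≤ κ0 / 2 := min_le_right _ _; linarith
  have hthk : ∀ y ∈ thk W (2 * r0), y.1 ∈ Icc (c1 - κ0) (c2 + κ0) ∧ y.2.1 ∈ Icc (d1 - κ0) (d2 + κ0) ∧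
      |y.2.2| ≤ 5 / 4 ∧ |dp F (y.1, y.2.1)| ≤ 2 * M := by
    rintro y ⟨x, hx, hd⟩
    have hxb := hx.1
    have hxM : |dp F (x.1, x.2.1)| ≤ M := hx.2
    have h1 : dist y.1 x.1 ≤ κ0 := (le_max_left _ _).trans (hd.trans hr0b)
    have h23 : dist y.2 x.2 ≤ κ0 := (le_max_right _ _).trans (hd.trans hr0b)
    have h2 : dist y.2.1 x.2.1 ≤ κ0 := (le_max_left _ _).trans h23
    have h3 : dist y.2.2 x.2.2 ≤ κ0 := (le_max_right _ _).trans h23
    rw [Real.dist_eq] at h1 h2 h3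
    have k1 := abs_le.mp h1
    have k2 := abs_le.mp h2
    have k3 := abs_le.mp h3
    have hb1 := hxb.1
    have hb2 := hxb.2.1
    have hb3 := hxb.2.2
    refine ⟨⟨by linarith [k1.1, hb1.1], by linarith [k1.2, hb1.2]⟩,
      ⟨by linarith [k2.1, hb2.1], by linarith [k2.2, hb2.2]⟩, ?_, ?_⟩
    · rw [abs_le]; constructor <;> linarith [k3.1, k3.2, hb3.1, hb3.2]
    · have h4 := abs_le.mp (hnear x hx y (hd.trans hr0a))
      have h5 := abs_le.mp hxM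
      rw [abs_le]; constructor <;> linarith [h4.1, h4.2, h5.1, h5.2]
  have hDpos : 0 < E + 5 * M := by positivity
  obtain ⟨δ, hδ, S, hS, hSl⟩ := bad_slices hF hW (fun x hx => by
      have h := hx.1
      have h2 := h.2.1
      have h3 := h.2.2
      exact ⟨abs_le.mpr ⟨by linarith [h2.1], by linarith [h2.2]⟩, abs_le.mpr ⟨h3.1, h3.2⟩⟩) hZb hDpos hr0 hκ1' hη₁ hε'
    (fun y hy => by
      obtain ⟨h1, h2, h3, h4⟩ := hthk y hy
      refine ⟨?_, ⟨h1, h2⟩, h4⟩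
      rw [pd_affine F y.1 y.2.1 y.2.2 (κ' y.1)]
      refine (abs_add_le _ _).trans ?_
      rw [abs_mul]
      have h5 : |y.2.2 - κ' y.1| ≤ 2 := by
        have h6 := abs_le.mp (hκb y.1 h1)
        have h7 := abs_le.mp h3
        rw [abs_le]; constructor <;> linarith [h6.1, h6.2, h7.1, h7.2]
      have h8 : |dp F (y.1, y.2.1)| * |y.2.2 - κ' y.1| ≤ (2 * M) * 2 :=
        mul_le_mul h4 h5 (abs_nonneg _) (by positivity)
      linarith [hE y.1 h1 y.2.1 h2]) (Adm := Adm)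
    (fun l s hls y hy h1 h2 => by
      obtain ⟨k1, k2, k3, k4⟩ := hthk y hy
      exact hadm l s hls y ⟨by linarith [k1.1], by linarith [k1.2]⟩
        (abs_le.mpr ⟨by linarith [k2.1], by linarith [k2.2]⟩) (k3.trans (by norm_num)) h1 h2)
  refine ⟨δ, hδ, (isCompact_Qreg hF.continuous hW δ).measurableSet, S, hS.trans ?_, hSl⟩
  have hvZ : volume Zb ≤ ENNReal.ofReal ((c2 - c1 + 2 * κ0) * ϵ) := by
    rw [Measure.volume_eq_prod, Measure.prod_apply hZb.measurableSet]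
    have h3 : ∀ θ, volume (Prod.mk θ ⁻¹' Zb) ≤
        (Icc (c1 - κ0) (c2 + κ0)).indicator (fun _ => ENNReal.ofReal ϵ) θ := by
      intro θ
      by_cases hθ : θ ∈ Icc (c1 - κ0) (c2 + κ0)
      · rw [indicator_of_mem hθ]
        refine (measure_mono ?_).trans (hbad θ hθ)
        intro p hp
        exact ⟨hp.1.2, hp.2⟩
      · rw [indicator_of_notMem hθ]
        have : Prod.mk θ ⁻¹' Zb = ∅ := by
          ext p
          simp only [mem_preimage, mem_empty_iff_false, iff_false]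
          intro hp
          exact hθ hp.1.1
        rw [this]; simp
    refine (lintegral_mono h3).trans ?_
    rw [lintegral_indicator measurableSet_Icc, setLIntegral_const, Real.volume_Icc,
      ← ENNReal.ofReal_mul hϵ]
    apply ENNReal.ofReal_le_ofReal
    linarith
  rw [ENNReal.ofReal_mul (by positivity)]
  gcongr

lemma kill_core2 {c1 c2 d1 d2 κ0 : ℝ} (hcc : c1 ≤ c2) (hdd : d1 ≤ d2) (hκ0 : 0 < κ0)
    (hκ1 : κ0 ≤ 1 / 4) (hcw : c2 - c1 ≤ 1 / 2) (hdl : -1 ≤ d1 - κ0) (hdr : d2 + κ0 ≤ 1)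
    {O : Set (ℝ × ℝ)} (hO : IsOpen O)
    (hCO : Icc (c1 - κ0) (c2 + κ0) ×ˢ Icc (d1 - κ0) (d2 + κ0) ⊆ O)
    {P : ℝ → (ℝ × ℝ → ℝ) → Prop} (hP : PFam P)
    {A B : ℝ → ℝ} (hA : Site P O (c1 - κ0) (c2 + κ0) A) (hB : Site P O (c1 - κ0) (c2 + κ0) B)
    {X : ℝ} (hX : 0 < X) (hsep : ∀ θ ∈ Icc (c1 - κ0) (c2 + κ0), X ≤ deriv A θ - deriv B θ)
    {F : ℝ × ℝ → ℝ} (hF : ContDiff ℝ 1 F) {ε μ : ℝ} (hε : 0 < ε) (hμ : 0 < μ) :
    ∃ φ, P μ φ ∧ ∃ δ > 0, ∃ Q : Set (ℂ × ℝ), MeasurableSet Q ∧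
      (∀ l ∈ Icc c1 c2 ×ˢ Icc d1 d2, ∀ s : ℝ, |F l + φ l - s| ≤ δ →
        ENNReal.ofReal (X / 4) ≤
          volume {σ : ℝ | σ ∈ Icc (deriv B l.1) (deriv A l.1 + X / 2) ∧ (pt l.1 l.2 σ, s) ∈ Q}) ∧
      ∃ S : Set ℝ, volume S ≤ ENNReal.ofReal ε ∧ ∀ s ∉ S, ∀ l : ℝ × ℝ,
        l.1 ∈ Icc (c1 - 5 / 3) (c2 + 5 / 3) → ε ≤ |F l - s| →
        volume {σ : ℝ | |σ| ≤ 1 ∧ (pt l.1 l.2 σ, s) ∈ Q} ≤ ENNReal.ofReal ε := by
  have hb : d1 - κ0 ≤ d2 + κ0 := by linarith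
  have hX1 : X ≤ 1 := by
    have h1 := hsep c1 ⟨by linarith, by linarith⟩
    have h2 := abs_le.mp (hA.hb c1 ⟨by linarith, by linarith⟩)
    have h3 := abs_le.mp (hB.hb c1 ⟨by linarith, by linarith⟩)
    linarith [h2.2, h3.1]
  have hCR : ∀ θ ∈ Icc c1 c2, θ ∈ Icc (c1 - κ0) (c2 + κ0) :=
    fun θ hθ => ⟨by linarith [hθ.1], by linarith [hθ.2]⟩
  have hDR : ∀ p ∈ Icc d1 d2, p ∈ Icc (d1 - κ0) (d2 + κ0) :=
    fun p hp => ⟨by linarith [hp.1], by linarith [hp.2]⟩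
  set ϱ : ℝ := X / 4 with hϱ
  have hϱ0 : 0 < ϱ := by positivity
  set L : ℝ := c2 - c1 + 2 * κ0 with hL
  have hL0 : 0 < L := by linarith
  set Adm : ℝ × ℝ → ℝ → Prop := fun l s => l.1 ∈ Icc (c1 - 5 / 3) (c2 + 5 / 3) ∧ ε ≤ |F l - s| with hAdm
  obtain ⟨η₁, hη₁, hang⟩ := exists_angle hF c1 c2 hcw hε
  -- phase 1
  obtain ⟨E₁, hE₁ϱ, hE₁⟩ := exists_E (a1 := c1 - κ0) (a2 := c2 + κ0) (b1 := d1 - κ0) (b2 := d2 + κ0)
    hF hA.hκ ϱ
  have hE₁0 : 0 < E₁ := lt_of_lt_of_le hϱ0 hE₁ϱ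
  set M₁ : ℝ := E₁ / ϱ with hM₁
  have hM₁1 : 1 ≤ M₁ := by rw [hM₁, one_le_div hϱ0]; exact hE₁ϱ
  have hM₁0 : 0 < M₁ := by linarith
  set ϵ₁ : ℝ := ε * η₁ * (ε / 8) / (4 * (E₁ + 5 * M₁) * L) with hϵ₁
  have hϵ₁0 : 0 < ϵ₁ := by positivity
  obtain ⟨φ₁, h1P, h1m, h1z, h1bad, -⟩ := phase hb hO hCO hP hA one_pos
    (by linarith : (1:ℝ) ≤ 2 * M₁) hϵ₁0 hF
    isCompact_empty isCompact_empty (empty_subset _) (empty_subset _)
    (fun x hx => absurd hx (notMem_empty x)) (fun x hx => absurd hx (notMem_empty x))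
    (by positivity : 0 < ε / 8) (half_pos hμ) one_pos
  have h1C := hP.hC1 _ _ h1P
  set F₁ : ℝ × ℝ → ℝ := fun l => F l + φ₁ l with hF₁
  have hF₁C : ContDiff ℝ 1 F₁ := hF.add h1C
  have hE₁' : ∀ θ ∈ Icc (c1 - κ0) (c2 + κ0), ∀ p ∈ Icc (d1 - κ0) (d2 + κ0),
      |pd F₁ θ p (deriv A θ)| ≤ E₁ := by
    intro θ hθ p hp
    rw [hF₁, pd_add hF h1C, h1z θ hθ p hp, add_zero]
    exact hE₁ θ hθ p hp
  have hF₁F : ∀ l, |F₁ l - F l| ≤ ε / 8 := by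
    intro l
    have : F₁ l - F l = φ₁ l := by simp only [hF₁]; ring
    rw [this]; exact h1m l
  obtain ⟨δa, hδa, hQam, Sa, hSa, hSal⟩ := bad_pack hF₁C hκ0 hκ1 hdl hdr hA.hb hE₁0 hM₁0 hϵ₁0.le
    hE₁' h1bad (by positivity : 0 < ε / 4) hη₁ (by positivity : 0 < ε / 8) (Adm := Adm)
    (fun l s hls y h1 h2 h3 h4 h5 => by
      refine hang l hls.1 s hls.2 y h1 h2 h3 h4 ?_
      have e1 : F (y.1, y.2.1) - s = (F₁ (y.1, y.2.1) - s) - (F₁ (y.1, y.2.1) - F (y.1, y.2.1)) := by ring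
      rw [e1]
      refine (abs_sub _ _).trans ?_
      linarith [hF₁F (y.1, y.2.1)])
  have hSa' : volume Sa ≤ ENNReal.ofReal (ε / 2) := by
    refine hSa.trans (ENNReal.ofReal_le_ofReal (le_of_eq ?_))
    rw [hϵ₁]
    field_simp
    ring
  -- phase 2
  obtain ⟨E₂, hE₂ϱ, hE₂⟩ := exists_E (a1 := c1 - κ0) (a2 := c2 + κ0) (b1 := d1 - κ0) (b2 := d2 + κ0)
    hF₁C hB.hκ ϱ
  have hE₂0 : 0 < E₂ := lt_of_lt_of_le hϱ0 hE₂ϱ
  set M₂ : ℝ := E₂ / ϱ with hM₂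
  have hM₂1 : 1 ≤ M₂ := by rw [hM₂, one_le_div hϱ0]; exact hE₂ϱ
  have hM₂0 : 0 < M₂ := by linarith
  set ϵ₂ : ℝ := ε * η₁ * (ε / 8) / (4 * (E₂ + 5 * M₂) * L) with hϵ₂
  have hϵ₂0 : 0 < ϵ₂ := by positivity
  set e : ℝ × ℝ → ℝ := fun l => pd F₁ l.1 l.2 (deriv B l.1) with he
  have hB' : Continuous (deriv B) := hB.hκ.continuous_deriv (by norm_num)
  have hec : Continuous e := by
    have h1 : Continuous (fun l : ℝ × ℝ => (l.1, l.2, deriv B l.1)) := by fun_prop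
    exact (continuous_pd hF₁C).comp h1
  obtain ⟨re, hre, henear⟩ := exists_near (g := fun x : ℝ × ℝ × ℝ => e (x.1, x.2.1))
    (hec.comp (by fun_prop)) (isCompact_Bx c1 c2 d1 d2) hE₁0
  set r : ℝ := min re κ0 with hrdef
  have hr0 : 0 < r := lt_min hre hκ0
  have hrre : r ≤ re := min_le_left _ _
  have hrκ : r ≤ κ0 := min_le_right _ _
  obtain ⟨n0, hn0⟩ := exists_nat_ge (2 * (c2 - c1) / r)
  set n : ℕ := n0 + 1 with hn
  have hnpos : 0 < n := Nat.succ_pos _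
  have hn' : (0:ℝ) < n := by exact_mod_cast hnpos
  set h : ℝ := (c2 - c1) / n with hh
  have hh0 : 0 ≤ h := div_nonneg (by linarith) hn'.le
  have hhr : h ≤ r / 2 := by
    rw [hh, div_le_iff₀ hn']
    rw [div_le_iff₀ hr0] at hn0
    have : (n0 : ℝ) ≤ n := by rw [hn]; push_cast; linarith
    nlinarith
  set ρ0 : ℝ := r / 6 with hρ0
  have hρ00 : 0 < ρ0 := by positivity
  have hρ0κ : ρ0 ≤ κ0 := by linarith
  set ι : Type := Fin n × Bool with hι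
  set sgn : ι → ℝ := fun i => if i.2 then 1 else -1 with hsgn
  have hsgn1 : ∀ i, |sgn i| = 1 := by
    intro i; simp only [hsgn]; split_ifs <;> simp
  have hdpc : Continuous (fun x : ℝ × ℝ × ℝ => dp F₁ (x.1, x.2.1)) :=
    (continuous_dp hF₁C).comp (by fun_prop)
  set P0 : ι → Set (ℝ × ℝ × ℝ) := fun i => Bx c1 c2 d1 d2 ∩ ({x | M₁ ≤ |dp F₁ (x.1, x.2.1)|} ∩
    ({x | 0 ≤ sgn i * pd F₁ x.1 x.2.1 x.2.2} ∩ {x | x.1 ∈ Icc (c1 + i.1 * h) (c1 + (i.1 + 1) * h)})) with hP0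
  have hP0c : ∀ i, IsCompact (P0 i) := by
    intro i
    refine (isCompact_Bx _ _ _ _).inter_right ?_
    have k1 : IsClosed {x : ℝ × ℝ × ℝ | M₁ ≤ |dp F₁ (x.1, x.2.1)|} := isClosed_le continuous_const hdpc.abs
    have k2 : IsClosed {x : ℝ × ℝ × ℝ | 0 ≤ sgn i * pd F₁ x.1 x.2.1 x.2.2} :=
      isClosed_le continuous_const ((continuous_pd hF₁C).const_mul _)
    have k3 : IsClosed {x : ℝ × ℝ × ℝ | x.1 ∈ Icc (c1 + i.1 * h) (c1 + (i.1 + 1) * h)} :=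
      isClosed_Icc.preimage continuous_fst
    exact k1.inter (k2.inter k3)
  obtain ⟨CB, hCB⟩ := (isCompact_Icc (a := c1 - κ0) (b := c2 + κ0)).exists_bound_of_continuousOn
    hB.hκ.continuous.continuousOn
  set Lx : ℝ := |CB| + 3 with hLx
  have hLx0 : 0 < Lx := by positivity
  have hϱX : M₁ * X = 4 * E₁ := by rw [hM₁, hϱ]; field_simp
  have ctx : Ctx P O (c1 - κ0) (c2 + κ0) (d1 - κ0) (d2 + κ0) B ι sgn P0 e E₁ η₁ ρ0 Lx (ε / 2) F Adm := by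
    refine ⟨hb, hdl, hdr, hO, hCO, hP, hB, hsgn1, ?_, ?_, hE₁0, hη₁, hρ00, ?_, hLx0, ?_, ?_⟩
    · intro i x hx
      exact ⟨hCR _ hx.1.1, hDR _ hx.1.2.1, hx.1.2.2⟩
    · rintro i y ⟨x, hx, hd⟩
      have hxb := hx.1
      have h1 : dist y.1 x.1 ≤ ρ0 := (le_max_left _ _).trans hd
      have h23 : dist y.2 x.2 ≤ ρ0 := (le_max_right _ _).trans hd
      have h2 : dist y.2.1 x.2.1 ≤ ρ0 := (le_max_left _ _).trans h23
      have h3 : dist y.2.2 x.2.2 ≤ ρ0 := (le_max_right _ _).trans h23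
      rw [Real.dist_eq] at h1 h2 h3
      have k1 := abs_le.mp h1
      have k2 := abs_le.mp h2
      have k3 := abs_le.mp h3
      have hb1 := hxb.1
      have hb2 := hxb.2.1
      have hb3 := hxb.2.2
      refine ⟨⟨by linarith [k1.1, hb1.1], by linarith [k1.2, hb1.2]⟩, ?_, ?_⟩
      · rw [abs_le]; constructor <;> linarith [k2.1, k2.2, hb2.1, hb2.2]
      · rw [abs_le]; constructor <;> linarith [k3.1, k3.2, hb3.1, hb3.2]
    · intro θ hθ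
      have h1 := hCB θ hθ
      rw [Real.norm_eq_abs] at h1
      have h2 := le_abs_self CB
      linarith
    · -- monotonicity data
      rintro i y₁ ⟨x₁, hx₁, hd₁⟩ y₂ ⟨x₂, hx₂, hd₂⟩ hxx θ hθ
      have hxb := hx₁.1
      have hb1 := hxb.1
      have hb2 := hxb.2.1
      have a1' : dist y₁.1 x₁.1 ≤ ρ0 := (le_max_left _ _).trans hd₁
      have a2' : dist y₂.1 x₂.1 ≤ ρ0 := (le_max_left _ _).trans hd₂
      have a3' : dist y₁.2.1 x₁.2.1 ≤ ρ0 := (le_max_left _ _).trans ((le_max_right _ _).trans hd₁)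
      rw [Real.dist_eq] at a1' a2' a3'
      have k1 := abs_le.mp a1'
      have k2 := abs_le.mp a2'
      have k3 := abs_le.mp a3'
      have j1 := hx₁.2.2.2
      have j2 := hx₂.2.2.2
      simp only [mem_ofPred_eq, mem_Icc] at j1 j2
      have hj : |y₁.1 - y₂.1| ≤ h + 2 * ρ0 := by
        have e0 : ((i.1 : ℕ) + 1 : ℝ) * h = (i.1 : ℕ) * h + h := by ring
        rw [e0] at j1 j2
        rw [abs_le]
        constructor <;> linarith [k1.1, k1.2, k2.1, k2.2, j1.1, j1.2, j2.1, j2.2]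
      have hθ1 : |θ - y₁.1| ≤ h + 2 * ρ0 := (abs_sub_left_of_mem_uIcc hθ).trans (by
        rw [abs_sub_comm]; exact hj)
      have hθx : |θ - x₁.1| ≤ r := by
        have e1 : θ - x₁.1 = (θ - y₁.1) + (y₁.1 - x₁.1) := by ring
        rw [e1]
        refine (abs_add_le _ _).trans ?_
        linarith
      have hθR : θ ∈ Icc (c1 - κ0) (c2 + κ0) := by
        have := abs_le.mp hθx
        exact ⟨by linarith [this.1, hb1.1], by linarith [this.2, hb1.2]⟩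
      have hy1R : y₁.1 ∈ Icc (c1 - κ0) (c2 + κ0) :=
        ⟨by linarith [k1.1, hb1.1], by linarith [k1.2, hb1.2]⟩
      have hBlip : |B θ - B y₁.1| ≤ |θ - y₁.1| := by
        have := Convex.norm_image_sub_le_of_norm_hasDerivWithin_le (f := B)
          (f' := fun θ => deriv B θ) (C := 1) (s := Icc (c1 - κ0) (c2 + κ0)) (x := y₁.1) (y := θ)
          (fun x _ => ((hB.hκ.differentiable (by norm_num) x).hasDerivAt).hasDerivWithinAt)
          (fun x hx => (hB.hb x hx).trans (by norm_num)) (convex_Icc _ _) hy1R hθR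
        simpa using this
      set q : ℝ := (y₁.2.1 - B y₁.1) + B θ with hq
      have hqx : |q - x₁.2.1| ≤ r := by
        have e1 : q - x₁.2.1 = (B θ - B y₁.1) + (y₁.2.1 - x₁.2.1) := by rw [hq]; ring
        rw [e1]
        refine (abs_add_le _ _).trans ?_
        linarith
      have hqR : q ∈ Icc (d1 - κ0) (d2 + κ0) := by
        have := abs_le.mp hqx
        exact ⟨by linarith [this.1, hb2.1], by linarith [this.2, hb2.2]⟩
      refine ⟨hCO ⟨hθR, hqR⟩, ?_⟩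
      have hnear2 := henear x₁ hx₁.1 (θ, q, x₁.2.2) (by
        rw [Prod.dist_eq, Prod.dist_eq]
        refine max_le ?_ (max_le ?_ ?_)
        · rw [Real.dist_eq]; exact hθx.trans hrre
        · rw [Real.dist_eq]; exact hqx.trans hrre
        · simp only [dist_self]; exact hre.le)
      simp only at hnear2
      have hbig : 3 * E₁ ≤ |e (x₁.1, x₁.2.1)| := by
        have h1 : e (x₁.1, x₁.2.1) = pd F₁ x₁.1 x₁.2.1 (deriv A x₁.1) +
            dp F₁ (x₁.1, x₁.2.1) * (deriv B x₁.1 - deriv A x₁.1) := by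
          simp only [he]; exact pd_affine F₁ _ _ _ _
        have h2 : M₁ ≤ |dp F₁ (x₁.1, x₁.2.1)| := hx₁.2.1
        have h3 := hsep x₁.1 (hCR _ hb1)
        have h4 : |dp F₁ (x₁.1, x₁.2.1) * (deriv B x₁.1 - deriv A x₁.1)| ≥ M₁ * X := by
          rw [abs_mul, abs_sub_comm]
          refine mul_le_mul h2 ?_ hX.le (abs_nonneg _)
          exact h3.trans (le_abs_self _)
        have h5 := hE₁' x₁.1 (hCR _ hb1) x₁.2.1 (hDR _ hb2)
        have h6 : |dp F₁ (x₁.1, x₁.2.1) * (deriv B x₁.1 - deriv A x₁.1)| ≤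
            |e (x₁.1, x₁.2.1)| + |pd F₁ x₁.1 x₁.2.1 (deriv A x₁.1)| := by
          have : dp F₁ (x₁.1, x₁.2.1) * (deriv B x₁.1 - deriv A x₁.1) =
            e (x₁.1, x₁.2.1) - pd F₁ x₁.1 x₁.2.1 (deriv A x₁.1) := by rw [h1]; ring
          rw [this]; exact abs_sub _ _
        linarith
      have h7 : |e (x₁.1, x₁.2.1)| ≤ |e (θ, q)| + |e (θ, q) - e (x₁.1, x₁.2.1)| := by
        have : e (x₁.1, x₁.2.1) = e (θ, q) - (e (θ, q) - e (x₁.1, x₁.2.1)) := by ring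
        calc |e (x₁.1, x₁.2.1)| = |e (θ, q) - (e (θ, q) - e (x₁.1, x₁.2.1))| := by rw [← this]
          _ ≤ _ := abs_sub _ _
      linarith
    · -- angles
      rintro l s hls i y ⟨x, hx, hd⟩ hnd hFs
      have hxb := hx.1
      have h1 : dist y.1 x.1 ≤ ρ0 := (le_max_left _ _).trans hd
      have h23 : dist y.2 x.2 ≤ ρ0 := (le_max_right _ _).trans hd
      have h2 : dist y.2.1 x.2.1 ≤ ρ0 := (le_max_left _ _).trans h23
      have h3 : dist y.2.2 x.2.2 ≤ ρ0 := (le_max_right _ _).trans h23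
      rw [Real.dist_eq] at h1 h2 h3
      have k1 := abs_le.mp h1
      have k2 := abs_le.mp h2
      have k3 := abs_le.mp h3
      have hb1 := hxb.1
      have hb2 := hxb.2.1
      have hb3 := hxb.2.2
      refine hang l hls.1 s hls.2 y ⟨by linarith [k1.1, hb1.1], by linarith [k1.2, hb1.2]⟩
        (abs_le.mpr ⟨by linarith [k2.1, hb2.1], by linarith [k2.2, hb2.2]⟩)
        (abs_le.mpr ⟨by linarith [k3.1, hb3.1], by linarith [k3.2, hb3.2]⟩) hnd hFs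
  set β₂ : ℝ := min 1 (ε * E₁ * η₁ / (192 * n * Lx)) with hβ₂
  have hβ₂0 : 0 < β₂ := lt_min one_pos (by positivity)
  have hβ₂1 : β₂ ≤ 1 := min_le_left _ _
  have hβ₂2 : β₂ * (192 * n * Lx) ≤ ε * E₁ * η₁ := by
    have h3 : β₂ ≤ ε * E₁ * η₁ / (192 * n * Lx) := min_le_right _ _
    rwa [le_div_iff₀ (by positivity)] at h3
  set η₂ : ℝ := ε / (16 * n) with hη₂
  have hη₂0 : 0 < η₂ := by positivity
  set ρ : ℝ := min ρ0 (ε / 8) with hρ
  have hρpos : 0 < ρ := lt_min hρ00 (by positivity)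
  have hρρ0 : ρ ≤ ρ0 := min_le_left _ _
  have hρε : ρ ≤ ε / 8 := min_le_right _ _
  set m : ℝ := min (ε / 8) (δa / 2) with hm
  have hm0 : 0 < m := lt_min (by positivity) (by positivity)
  have hmε : m ≤ ε / 8 := min_le_left _ _
  have hmδ : m ≤ δa / 2 := min_le_right _ _
  obtain ⟨φ₂, h2P, h2m, h2z, h2bad, δ₂, hδ₂, Q₂, hQ₂m, hQ₂s, hQ₂v⟩ := phase2 ctx hβ₂0
    (by linarith : β₂ ≤ 2 * M₂) hϵ₂0 hF₁C (fun l _ => rfl) hP0c (fun i => le_refl _)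
    (fun i x hx => hx.2.2.1) hm0 (half_pos hμ) hη₂0 hρpos hρρ0
    (fun l => by linarith [hF₁F l])
  have h2C := hP.hC1 _ _ h2P
  set F₂ : ℝ × ℝ → ℝ := fun l => F₁ l + φ₂ l with hF₂
  have hF₂C : ContDiff ℝ 1 F₂ := hF₁C.add h2C
  have hE₂' : ∀ θ ∈ Icc (c1 - κ0) (c2 + κ0), ∀ p ∈ Icc (d1 - κ0) (d2 + κ0),
      |pd F₂ θ p (deriv B θ)| ≤ E₂ := by
    intro θ hθ p hp
    have h1 : pd φ₂ θ p (deriv B θ) = 0 := h2z (θ, p) (hCO ⟨hθ, hp⟩)
    rw [hF₂, pd_add hF₁C h2C, h1, add_zero]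
    exact hE₂ θ hθ p hp
  have hF₂F : ∀ l, |F₂ l - F l| ≤ ε / 4 := by
    intro l
    have : F₂ l - F l = (F₁ l - F l) + φ₂ l := by simp only [hF₂]; ring
    rw [this]
    refine (abs_add_le _ _).trans ?_
    linarith [hF₁F l, h2m l]
  obtain ⟨δb, hδb, hQbm, Sb, hSb, hSbl⟩ := bad_pack hF₂C hκ0 hκ1 hdl hdr hB.hb hE₂0 hM₂0 hϵ₂0.le
    hE₂' h2bad (by positivity : 0 < ε / 4) hη₁ (by positivity : 0 < ε / 8) (Adm := Adm)
    (fun l s hls y h1 h2 h3 h4 h5 => by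
      refine hang l hls.1 s hls.2 y h1 h2 h3 h4 ?_
      have e1 : F (y.1, y.2.1) - s = (F₂ (y.1, y.2.1) - s) - (F₂ (y.1, y.2.1) - F (y.1, y.2.1)) := by ring
      rw [e1]
      refine (abs_sub _ _).trans ?_
      linarith [hF₂F (y.1, y.2.1)])
  have hSb' : volume Sb ≤ ENNReal.ofReal (ε / 2) := by
    refine hSb.trans (ENNReal.ofReal_le_ofReal (le_of_eq ?_))
    rw [hϵ₂]
    field_simp
    ring
  set Qa := Qreg F₁ (Bx c1 c2 d1 d2 ∩ {x | |dp F₁ (x.1, x.2.1)| ≤ M₁}) δa with hQa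
  set Qb := Qreg F₂ (Bx c1 c2 d1 d2 ∩ {x | |dp F₂ (x.1, x.2.1)| ≤ M₂}) δb with hQb
  refine ⟨fun l => φ₁ l + φ₂ l, ?_, min δ₂ (min (δa / 2) δb), lt_min hδ₂ (lt_min (half_pos hδa) hδb),
    (⋃ i, Q₂ i) ∪ (Qa ∪ Qb), (MeasurableSet.iUnion hQ₂m).union (hQam.union hQbm), ?_, Sa ∪ Sb, ?_, ?_⟩
  · have := hP.hadd _ _ _ _ h1P h2P
    simpa using this
  · -- service
    rintro ⟨θ, p⟩ ⟨hθ, hp⟩ s hs
    simp only at hθ hp hs ⊢
    have hs2 : |F₂ (θ, p) - s| ≤ min δ₂ (min (δa / 2) δb) := by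
      have : F₂ (θ, p) - s = F (θ, p) + (φ₁ (θ, p) + φ₂ (θ, p)) - s := by
        simp only [hF₂, hF₁]; ring
      rw [this]; exact hs
    have hsδ₂ : |F₂ (θ, p) - s| ≤ δ₂ := hs2.trans (min_le_left _ _)
    have hsδa : |F₂ (θ, p) - s| ≤ δa / 2 := hs2.trans ((min_le_right _ _).trans (min_le_left _ _))
    have hsδb : |F₂ (θ, p) - s| ≤ δb := hs2.trans ((min_le_right _ _).trans (min_le_right _ _))
    have hsδa1 : |F₁ (θ, p) - s| ≤ δa := by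
      have e1 : F₁ (θ, p) - s = (F₂ (θ, p) - s) + (- φ₂ (θ, p)) := by simp only [hF₂]; ring
      rw [e1]
      refine (abs_add_le _ _).trans ?_
      rw [abs_neg]
      linarith [h2m (θ, p)]
    have hθR := hCR θ hθ
    have hpR := hDR p hp
    have hA2 := abs_le.mp (hA.hb θ hθR)
    have hB2 := abs_le.mp (hB.hb θ hθR)
    have hsepθ := hsep θ hθR
    -- a general interval bound
    have hint : ∀ u v : ℝ, deriv B θ ≤ u → v ≤ deriv A θ + X / 2 → X / 4 ≤ v - u →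
        (∀ σ ∈ Icc u v, (pt θ p σ, s) ∈ (⋃ i, Q₂ i) ∪ (Qa ∪ Qb)) →
        ENNReal.ofReal ϱ ≤ volume {σ : ℝ | σ ∈ Icc (deriv B θ) (deriv A θ + X / 2) ∧
          (pt θ p σ, s) ∈ (⋃ i, Q₂ i) ∪ (Qa ∪ Qb)} := by
      intro u v hu hv huv h
      calc ENNReal.ofReal ϱ ≤ ENNReal.ofReal (v - u) := ENNReal.ofReal_le_ofReal huv
        _ = volume (Icc u v) := by rw [Real.volume_Icc]
        _ ≤ _ := by
          apply measure_mono
          intro σ hσ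
          exact ⟨⟨by linarith [hσ.1], by linarith [hσ.2]⟩, h σ hσ⟩
    by_cases hb1 : |dp F₁ (θ, p)| ≤ M₁
    · apply hint (deriv B θ) (deriv A θ) le_rfl (by linarith) (by linarith)
      intro σ hσ
      right; left
      exact ⟨(θ, p, σ), ⟨⟨hθ, hp, ⟨by linarith [hσ.1], by linarith [hσ.2]⟩⟩, hb1⟩, rfl, hsδa1⟩
    by_cases hb2 : |dp F₂ (θ, p)| ≤ M₂
    · apply hint (deriv B θ) (deriv A θ) le_rfl (by linarith) (by linarith)
      intro σ hσ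
      right; right
      exact ⟨(θ, p, σ), ⟨⟨hθ, hp, ⟨by linarith [hσ.1], by linarith [hσ.2]⟩⟩, hb2⟩, rfl, hsδb⟩
    rw [not_le] at hb1 hb2
    have hM₁ϱ : M₁ * ϱ = E₁ := by rw [hM₁]; field_simp
    have hM₂ϱ : M₂ * ϱ = E₂ := by rw [hM₂]; field_simp
    have hpdA : ∀ σ, pd F₁ θ p σ = pd F₁ θ p (deriv A θ) + dp F₁ (θ, p) * (σ - deriv A θ) :=
      fun σ => pd_affine F₁ θ p σ _
    have hpdB : ∀ σ, pd F₂ θ p σ = pd F₂ θ p (deriv B θ) + dp F₂ (θ, p) * (σ - deriv B θ) :=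
      fun σ => pd_affine F₂ θ p σ _
    have hEA := abs_le.mp (hE₁' θ hθR p hpR)
    have hEB := abs_le.mp (hE₂' θ hθR p hpR)
    -- the piece containing θ
    obtain ⟨j, hj⟩ : ∃ j : Fin n, θ ∈ Icc (c1 + (j:ℕ) * h) (c1 + ((j:ℕ) + 1) * h) := by
      rcases hh0.eq_or_lt with h0 | h0
      · have hc12 : c1 = c2 := by
          have : (c2 - c1) = h * n := by rw [hh]; field_simp
          rw [← h0] at this; linarith
        refine ⟨⟨0, hnpos⟩, ?_⟩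
        rw [← h0]
        simp only [mul_zero, add_zero]
        rw [← hc12] at hθ
        exact hθ
      · by_cases hlast : θ = c2
        · refine ⟨⟨n - 1, by omega⟩, ?_⟩
          simp only
          have e1 : ((n - 1 : ℕ) : ℝ) = n - 1 := by
            rw [Nat.cast_sub hnpos]; simp
          have e2 : (n : ℝ) * h = c2 - c1 := by rw [hh]; field_simp
          rw [e1, hlast]
          constructor <;> nlinarith
        · have hθlt : θ < c2 := lt_of_le_of_ne hθ.2 hlast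
          have hnn : 0 ≤ (θ - c1) / h := div_nonneg (by linarith [hθ.1]) hh0
          refine ⟨⟨⌊(θ - c1) / h⌋₊, ?_⟩, ?_⟩
          · rw [Nat.floor_lt hnn, div_lt_iff₀ h0]
            have e2 : (n : ℝ) * h = c2 - c1 := by rw [hh]; field_simp
            rw [e2]; linarith
          · simp only
            have f1 := Nat.floor_le hnn
            have f2 := Nat.lt_floor_add_one ((θ - c1) / h)
            rw [le_div_iff₀ h0] at f1
            rw [div_lt_iff₀ h0] at f2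
            constructor <;> linarith
    have hservp : ∀ σ ∈ Icc (-1:ℝ) 1, 0 ≤ pd F₁ θ p σ → pd F₂ θ p σ < 0 →
        (pt θ p σ, s) ∈ (⋃ i, Q₂ i) ∪ (Qa ∪ Qb) := by
      intro σ hσ h1 h2
      left
      refine mem_iUnion.mpr ⟨(j, true), ?_⟩
      refine hQ₂s (j, true) (θ, p, σ) ⟨⟨hθ, hp, hσ⟩, hb1.le, ?_, hj⟩ ?_ s hsδ₂
      · simp only [mem_ofPred_eq, hsgn, if_true, one_mul]; exact h1
      · simp only [hsgn, if_true, one_mul]; exact h2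
    have hservn : ∀ σ ∈ Icc (-1:ℝ) 1, pd F₁ θ p σ ≤ 0 → 0 < pd F₂ θ p σ →
        (pt θ p σ, s) ∈ (⋃ i, Q₂ i) ∪ (Qa ∪ Qb) := by
      intro σ hσ h1 h2
      left
      refine mem_iUnion.mpr ⟨(j, false), ?_⟩
      refine hQ₂s (j, false) (θ, p, σ) ⟨⟨hθ, hp, hσ⟩, hb1.le, ?_, hj⟩ ?_ s hsδ₂
      · simp only [mem_ofPred_eq, hsgn, Bool.false_eq_true, if_false]; linarith
      · simp only [hsgn, Bool.false_eq_true, if_false]
        have : 0 < pd (fun l => F₁ l + φ₂ l) θ p σ := h2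
        linarith
    rw [← hM₁ϱ] at hEA
    rw [← hM₂ϱ] at hEB
    rcases lt_abs.mp hb1 with h1 | h1 <;> rcases lt_abs.mp hb2 with h2 | h2
    · apply hint (deriv B θ + ϱ) (deriv A θ - ϱ) (by linarith) (by linarith) (by linarith)
      intro σ hσ
      apply hservn σ ⟨by linarith [hσ.1], by linarith [hσ.2]⟩
      · rw [hpdA]; exact (sgn1 hEA.2 h1 hM₁0.le hϱ0 (by linarith [hσ.2])).le
      · rw [hpdB]; exact sgn2 hEB.1 h2 hM₂0.le hϱ0 (by linarith [hσ.1])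
    · apply hint (deriv A θ + ϱ) (deriv A θ + X / 2) (by linarith) (by linarith) (by linarith)
      intro σ hσ
      apply hservp σ ⟨by linarith [hσ.1], by linarith [hσ.2]⟩
      · rw [hpdA]; exact (sgn2 hEA.1 h1 hM₁0.le hϱ0 (by linarith [hσ.1])).le
      · rw [hpdB]; exact sgn4 hEB.2 h2 hM₂0.le hϱ0 (by linarith [hσ.1])
    · apply hint (deriv A θ + ϱ) (deriv A θ + X / 2) (by linarith) (by linarith) (by linarith)
      intro σ hσ
      apply hservn σ ⟨by linarith [hσ.1], by linarith [hσ.2]⟩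
      · rw [hpdA]; exact (sgn4 hEA.2 h1 hM₁0.le hϱ0 (by linarith [hσ.1])).le
      · rw [hpdB]; exact sgn2 hEB.1 h2 hM₂0.le hϱ0 (by linarith [hσ.1])
    · apply hint (deriv B θ + ϱ) (deriv A θ - ϱ) (by linarith) (by linarith) (by linarith)
      intro σ hσ
      apply hservp σ ⟨by linarith [hσ.1], by linarith [hσ.2]⟩
      · rw [hpdA]; exact (sgn3 hEA.1 h1 hM₁0.le hϱ0 (by linarith [hσ.2])).le
      · rw [hpdB]; exact sgn4 hEB.2 h2 hM₂0.le hϱ0 (by linarith [hσ.1])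
  · -- exceptional levels
    refine (measure_union_le _ _).trans ?_
    calc volume Sa + volume Sb ≤ ENNReal.ofReal (ε / 2) + ENNReal.ofReal (ε / 2) := by gcongr
      _ = ENNReal.ofReal ε := by
        rw [← ENNReal.ofReal_add (by positivity) (by positivity)]; congr 1; ring
  · -- slices
    intro s hs l hl1 hl2
    have hls : Adm l s := ⟨hl1, hl2⟩
    rw [mem_union, not_or] at hs
    have hva := hSal s hs.1 l hls
    have hvb := hSbl s hs.2 l hls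
    set w : ℝ := 6 * β₂ / (E₁ * η₁) * (2 * Lx) + η₂ with hw
    have hw0 : 0 ≤ w := by positivity
    have hv2 : ∀ i, volume (VQ (Q₂ i) l s) ≤ ENNReal.ofReal w := by
      intro i
      refine (hQ₂v i l s hls).trans ?_
      rw [hw, ENNReal.ofReal_add (by positivity) hη₂0.le, ENNReal.ofReal_mul (by positivity)]
      gcongr
      exact ctx.XS_le (le_refl _) hρρ0 l s
    have hsub : {σ : ℝ | |σ| ≤ 1 ∧ (pt l.1 l.2 σ, s) ∈ (⋃ i, Q₂ i) ∪ (Qa ∪ Qb)} ⊆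
        (⋃ i, VQ (Q₂ i) l s) ∪ (VQ Qa l s ∪ VQ Qb l s) := by
      rintro σ ⟨h1, h2⟩
      rcases h2 with h2 | h2 | h2
      · obtain ⟨i, hi⟩ := mem_iUnion.mp h2
        left; exact mem_iUnion.mpr ⟨i, h1, hi⟩
      · right; left; exact ⟨h1, h2⟩
      · right; right; exact ⟨h1, h2⟩
    have hsum : volume (⋃ i, VQ (Q₂ i) l s) ≤ ENNReal.ofReal (ε / 4) := by
      calc volume (⋃ i, VQ (Q₂ i) l s) ≤ ∑ i, volume (VQ (Q₂ i) l s) := measure_iUnion_fintype_le _ _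
        _ ≤ ∑ _i : ι, ENNReal.ofReal w := Finset.sum_le_sum (fun i _ => hv2 i)
        _ = ENNReal.ofReal (2 * n * w) := by
          rw [Finset.sum_const, nsmul_eq_mul]
          have hcard : (Finset.univ : Finset ι).card = n * 2 := by
            change (Finset.univ : Finset (Fin n × Bool)).card = n * 2
            rw [Finset.card_univ, Fintype.card_prod]; simp
          rw [hcard, ENNReal.ofReal_mul (by positivity)]
          congr 1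
          rw [← ENNReal.ofReal_natCast]
          congr 1
          push_cast
          ring
        _ ≤ ENNReal.ofReal (ε / 4) := by
          apply ENNReal.ofReal_le_ofReal
          rw [hw, mul_add]
          have e1 : 2 * n * η₂ = ε / 8 := by rw [hη₂]; field_simp; norm_num
          have e2 : 2 * n * (6 * β₂ / (E₁ * η₁) * (2 * Lx)) ≤ ε / 8 := by
            have e3 : 2 * n * (6 * β₂ / (E₁ * η₁) * (2 * Lx)) =
              (β₂ * (192 * n * Lx)) / (8 * (E₁ * η₁)) := by field_simp; ring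
            rw [e3, div_le_iff₀ (by positivity)]
            nlinarith
          linarith
    calc volume {σ : ℝ | |σ| ≤ 1 ∧ (pt l.1 l.2 σ, s) ∈ (⋃ i, Q₂ i) ∪ (Qa ∪ Qb)} ≤
        volume (⋃ i, VQ (Q₂ i) l s) + (volume (VQ Qa l s) + volume (VQ Qb l s)) :=
          (measure_mono hsub).trans ((measure_union_le _ _).trans (by gcongr; exact measure_union_le _ _))
      _ ≤ ENNReal.ofReal (ε / 4) + (ENNReal.ofReal (ε / 8) + ENNReal.ofReal (ε / 8)) := by gcongr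
      _ = ENNReal.ofReal (ε / 2) := by
        rw [← ENNReal.ofReal_add (by positivity) (by positivity),
          ← ENNReal.ofReal_add (by positivity) (by positivity)]
        congr 1; ring
      _ ≤ _ := ENNReal.ofReal_le_ofReal (by linarith)

end Croft.KA

namespace Croft

open Real in
/-- **(KA2)** the kill lemma with control of the slices on all lines away from the level. -/
theorem kill_abstract2 (a1 a2 b1 b2 κ0 : ℝ) (ha : a1 ≤ a2) (hb : b1 ≤ b2) (hκ0 : 0 < κ0)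
    (hκ1 : κ0 ≤ 1 / 4) (haw : a2 - a1 ≤ 1 / 2) (hbl : -1 ≤ b1 - κ0) (hbr : b2 + κ0 ≤ 1)
    (O : Set (ℝ × ℝ)) (hO : IsOpen O)
    (hCO : Icc (a1 - κ0) (a2 + κ0) ×ˢ Icc (b1 - κ0) (b2 + κ0) ⊆ O)
    (A B : ℝ → ℝ) (hA : ContDiff ℝ 2 A) (hB : ContDiff ℝ 2 B) (X : ℝ) (hX : 0 < X)
    (hsep : ∀ θ ∈ Icc (a1 - κ0) (a2 + κ0), X ≤ deriv A θ - deriv B θ)
    (hAb : ∀ θ ∈ Icc (a1 - κ0) (a2 + κ0), |deriv A θ| ≤ 1 / 2)
    (hBb : ∀ θ ∈ Icc (a1 - κ0) (a2 + κ0), |deriv B θ| ≤ 1 / 2)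
    (P : ℝ → (ℝ × ℝ → ℝ) → Prop)
    (hadd : ∀ μ₁ μ₂ φ₁ φ₂, P μ₁ φ₁ → P μ₂ φ₂ → P (μ₁ + μ₂) (fun l => φ₁ l + φ₂ l))
    (hzero : ∀ μ, 0 ≤ μ → P μ (fun _ => 0))
    (hC1 : ∀ μ φ, P μ φ → ContDiff ℝ 1 φ) (hsup : ∀ μ φ, P μ φ → ∀ l, |φ l| ≤ 2 * μ)
    (hwA : ∀ K μ, 0 < μ → ∃ k0 > 0, ∀ k ≥ k0, ∃ φ, P μ φ ∧ ∀ l ∈ O,
      φ l = K / (2 * π * k) * sin (2 * π * k * (l.2 - A l.1)))
    (hwB : ∀ K μ, 0 < μ → ∃ k0 > 0, ∀ k ≥ k0, ∃ φ, P μ φ ∧ ∀ l ∈ O,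
      φ l = K / (2 * π * k) * sin (2 * π * k * (l.2 - B l.1)))
    (F : ℝ × ℝ → ℝ) (hF : ContDiff ℝ 1 F) (ε μ : ℝ) (hε : 0 < ε) (hμ : 0 < μ) :
    ∃ φ, P μ φ ∧ ∃ δ > 0, ∃ Q : Set (ℂ × ℝ), MeasurableSet Q ∧
      (∀ l ∈ Icc a1 a2 ×ˢ Icc b1 b2, ∀ s : ℝ, |F l + φ l - s| ≤ δ →
        ENNReal.ofReal (X / 4) ≤
          volume {σ : ℝ | σ ∈ Icc (deriv B l.1) (deriv A l.1 + X / 2) ∧ (pt l.1 l.2 σ, s) ∈ Q}) ∧
      ∃ S : Set ℝ, volume S ≤ ENNReal.ofReal ε ∧ ∀ s ∉ S, ∀ l : ℝ × ℝ,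
        l.1 ∈ Icc (a1 - 5 / 3) (a2 + 5 / 3) → ε ≤ |F l - s| →
        volume {σ : ℝ | |σ| ≤ 1 ∧ (pt l.1 l.2 σ, s) ∈ Q} ≤ ENNReal.ofReal ε :=
  KA.kill_core2 ha hb hκ0 hκ1 haw hbl hbr hO hCO ⟨hadd, hzero, hC1, hsup⟩
    ⟨hA, hAb, hwA⟩ ⟨hB, hBb, hwB⟩ hX hsep hF hε hμ

end Croft
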